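import Pool.Agent.Helper38.SB.Dat

/-! Block J: the arcs of an equisingular family of plane curves. -/

namespace Pool.Agent.Helper38.SB

open MvPowerSeries Pool.Agent.Helper38.EQ Pool.Agent.Helper38.GP Pool.Agent.Helper85.SB

variable {d : ℕ} {K : Type} [Field K]

theorem ram_C {M : ℕ} (hM : M ≠ 0) (a : MvPowerSeries (Fin d) K) :
    ram hM (PowerSeries.C a) = PowerSeries.C a :=
  PowerSeries.expand_C M hM a

/-- The ramification, as a homomorphism of `K`-algebras. -/
noncomputable def ramK {M : ℕ} (hM : M ≠ 0) : WS d K →ₐ[K] WS d K :=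
  { ram hM with
    commutes' := fun a => by
      have h1 : algebraMap K (WS d K) a = PowerSeries.C (C a) := by
        rw [IsScalarTower.algebraMap_apply K (MvPowerSeries (Fin d) K) (WS d K)]
        rfl
      have h2 : ram hM (algebraMap K (WS d K) a) = algebraMap K (WS d K) a := by
        rw [h1, ram_C]
      exact h2 }

theorem ramK_apply {M : ℕ} (hM : M ≠ 0) (x : WS d K) : ramK hM x = ram hM x := rfl

theorem mem_WS (x : WS d K) : x ∈ IsLocalRing.maximalIdeal (WS d K) ↔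
    constantCoeff (PowerSeries.constantCoeff x) = 0 := by
  rw [IsLocalRing.mem_maximalIdeal, mem_nonunits_iff, PowerSeries.isUnit_iff_constantCoeff,
    MvPowerSeries.isUnit_iff_constantCoeff, isUnit_iff_ne_zero, not_not]

theorem map_algEquiv_mem {R S : Type} [CommRing R] [CommRing S] [IsLocalRing R] [IsLocalRing S]
    [Algebra K R] [Algebra K S] (e : R ≃ₐ[K] S) (x : R) :
    e x ∈ IsLocalRing.maximalIdeal S ↔ x ∈ IsLocalRing.maximalIdeal R := by
  rw [IsLocalRing.mem_maximalIdeal, IsLocalRing.mem_maximalIdeal, mem_nonunits_iff,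
    mem_nonunits_iff, not_iff_not]
  exact isUnit_map_iff e x

namespace Dat

variable {g : MvPowerSeries (Fin (d + 2)) K} {I : Ideal (MvPowerSeries (Fin (d + 2)) K)}
  (D : Dat g I)

/-- the coordinate `x` -/
noncomputable def x : MvPowerSeries (Fin (d + 2)) K :=
  D.p.σ.symm (PowerSeries.C (D.β.symm PowerSeries.X))

/-- the coordinate `y` -/
noncomputable def y : MvPowerSeries (Fin (d + 2)) K :=
  D.p.σ.symm (PowerSeries.X - PowerSeries.C D.τ)

/-- the coordinates `t` -/
noncomputable def t (j : Fin d) : MvPowerSeries (Fin (d + 2)) K :=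
  D.p.σ.symm (PowerSeries.C (D.β.symm (PowerSeries.C (X j))))

theorem exists_arc (l : Fin D.P.natDegree) :
    ∃ G : MvPowerSeries (Fin (d + 2)) K →ₐ[K] WS d K,
      (∀ b, G (D.p.σ.symm (PowerSeries.C b)) = ram D.hM (D.β b)) ∧
        G (D.p.σ.symm PowerSeries.X) = D.ρ l := by
  obtain ⟨Γ, h1, h2⟩ := exists_extend
    ((ramK D.hM).comp (D.β : MvPowerSeries (Fin (d + 1)) K →ₐ[K] WS d K)) (D.ρ l) (D.ρm l)
  refine ⟨Γ.comp (D.p.σ : MvPowerSeries (Fin (d + 2)) K →ₐ[K]
    PowerSeries (MvPowerSeries (Fin (d + 1)) K)), fun b => ?_, ?_⟩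
  · change Γ (D.p.σ (D.p.σ.symm (PowerSeries.C b))) = _
    rw [AlgEquiv.apply_symm_apply, h1]
    rfl
  · change Γ (D.p.σ (D.p.σ.symm PowerSeries.X)) = _
    rw [AlgEquiv.apply_symm_apply, h2]

/-- the arcs -/
noncomputable def G (l : Fin D.P.natDegree) : MvPowerSeries (Fin (d + 2)) K →ₐ[K] WS d K :=
  (D.exists_arc l).choose

theorem G_C (l : Fin D.P.natDegree) (b : MvPowerSeries (Fin (d + 1)) K) :
    D.G l (D.p.σ.symm (PowerSeries.C b)) = ram D.hM (D.β b) := (D.exists_arc l).choose_spec.1 b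

theorem G_X (l : Fin D.P.natDegree) : D.G l (D.p.σ.symm PowerSeries.X) = D.ρ l :=
  (D.exists_arc l).choose_spec.2

theorem G_x (l : Fin D.P.natDegree) : D.G l D.x = PowerSeries.X ^ D.M := by
  rw [x, G_C, AlgEquiv.apply_symm_apply, ram_X]

theorem G_y (l : Fin D.P.natDegree) : D.G l D.y = D.ρ l - ram D.hM (D.β D.τ) := by
  rw [y, map_sub, map_sub, G_C, G_X]

theorem G_t (l : Fin D.P.natDegree) (j : Fin d) : D.G l (D.t j) = PowerSeries.C (X j) := by
  rw [t, G_C, AlgEquiv.apply_symm_apply, ram_C]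

theorem G_diff (l l' : Fin D.P.natDegree) (h : l ≠ l') :
    ∃ k, Associated (D.G l D.y - D.G l' D.y) (PowerSeries.X ^ k) := by
  obtain ⟨k, hk⟩ := D.hd l l' h
  refine ⟨k, ?_⟩
  rw [G_y, G_y, sub_sub_sub_cancel_right]
  exact hk

theorem G_poly (l : Fin D.P.natDegree) (H : Polynomial (MvPowerSeries (Fin (d + 1)) K)) :
    D.G l (D.p.σ.symm (H : PowerSeries (MvPowerSeries (Fin (d + 1)) K))) =
      ((H.map (D.β : MvPowerSeries (Fin (d + 1)) K →+* WS d K)).map (ram D.hM)).eval (D.ρ l) := by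
  have h := eval_coe ((D.G l).comp (D.p.σ.symm : PowerSeries (MvPowerSeries (Fin (d + 1)) K) →ₐ[K]
    MvPowerSeries (Fin (d + 2)) K)) H
  have h1 : ((((D.G l).comp (D.p.σ.symm : PowerSeries (MvPowerSeries (Fin (d + 1)) K) →ₐ[K]
      MvPowerSeries (Fin (d + 2)) K)) : PowerSeries (MvPowerSeries (Fin (d + 1)) K) →+*
        WS d K).comp PowerSeries.C) =
      (ram D.hM).comp (D.β : MvPowerSeries (Fin (d + 1)) K →+* WS d K) :=
    RingHom.ext fun b => D.G_C l b
  have h2 : ((D.G l).comp (D.p.σ.symm : PowerSeries (MvPowerSeries (Fin (d + 1)) K) →ₐ[K]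
      MvPowerSeries (Fin (d + 2)) K)) PowerSeries.X = D.ρ l := D.G_X l
  rw [h1, h2, ← Polynomial.map_map] at h
  exact h

theorem G_σ (l : Fin D.P.natDegree) {h : MvPowerSeries (Fin (d + 2)) K}
    {H : Polynomial (MvPowerSeries (Fin (d + 1)) K)}
    {V : PowerSeries (MvPowerSeries (Fin (d + 1)) K)}
    (hH : (D.p.σ h).IsWeierstrassFactorization H V) :
    Associated (D.G l h) (((H.map (D.β : MvPowerSeries (Fin (d + 1)) K →+* WS d K)).map
      (ram D.hM)).eval (D.ρ l)) := by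
  have h1 : h = D.p.σ.symm (H * V) := by
    rw [← hH.eq_mul, AlgEquiv.symm_apply_apply]
  rw [h1, map_mul, map_mul, G_poly]
  exact associated_mul_unit_left _ _ ((hH.isUnit.map D.p.σ.symm).map (D.G l))

theorem G_g (l : Fin D.P.natDegree) : D.G l g = 0 := by
  have h1 := D.G_σ l D.hW
  rw [D.hρ, eval_prod_X_sub_C, Finset.prod_eq_zero (Finset.mem_univ l) (sub_self _)] at h1
  exact (associated_zero_iff_eq_zero _).1 h1

/-- The axis meets the curve only at the origin of the base. -/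
theorem eval_dvd : PowerSeries.X ∣
    (D.P.map (D.β : MvPowerSeries (Fin (d + 1)) K →+* WS d K)).eval (D.β D.τ) := by
  obtain ⟨ε, hC, hX, hε⟩ := Pool.Agent.Helper38.ED.exists_eval D.τ D.τm
  have h1 : (D.P : PowerSeries (MvPowerSeries (Fin (d + 1)) K)) ∈ Ideal.map D.p.σ I := by
    obtain ⟨V, hV⟩ := D.hW.isUnit.exists_right_inv
    have h2 : (D.P : PowerSeries (MvPowerSeries (Fin (d + 1)) K)) = D.p.σ g * V := by
      rw [D.hW.eq_mul, mul_assoc, hV, mul_one]
    rw [h2]
    exact Ideal.mul_mem_right _ _ (Ideal.mem_map_of_mem _ D.gI)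
  rw [D.hI, Ideal.mem_span_pair] at h1
  obtain ⟨a, b, hab⟩ := h1
  have h2 : ε (D.P : PowerSeries (MvPowerSeries (Fin (d + 1)) K)) = D.P.eval D.τ := by
    have h3 : ε.comp (Polynomial.coeToPowerSeries.ringHom
        (R := MvPowerSeries (Fin (d + 1)) K)) = Polynomial.evalRingHom D.τ := by
      apply Polynomial.ringHom_ext
      · intro a
        rw [Polynomial.coe_evalRingHom, Polynomial.eval_C]
        change ε ((Polynomial.C a : Polynomial (MvPowerSeries (Fin (d + 1)) K)) :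
          PowerSeries (MvPowerSeries (Fin (d + 1)) K)) = a
        rw [Polynomial.coe_C, hC]
      · rw [Polynomial.coe_evalRingHom, Polynomial.eval_X]
        change ε ((Polynomial.X : Polynomial (MvPowerSeries (Fin (d + 1)) K)) :
          PowerSeries (MvPowerSeries (Fin (d + 1)) K)) = _
        rw [Polynomial.coe_X, hX]
    exact RingHom.congr_fun h3 D.P
  have h3 : D.P.eval D.τ = ε a * D.β.symm PowerSeries.X := by
    rw [← h2, ← hab, map_add, map_mul, map_mul, map_sub, hC, hC, hX, sub_self, mul_zero, add_zero]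
  have h4 : (D.P.map (D.β : MvPowerSeries (Fin (d + 1)) K →+* WS d K)).eval (D.β D.τ) =
      D.β (D.P.eval D.τ) :=
    Polynomial.eval_map_apply (D.β : MvPowerSeries (Fin (d + 1)) K →+* WS d K) D.τ
  rw [h4, h3, map_mul, AlgEquiv.apply_symm_apply]
  exact dvd_mul_left _ _

theorem cmβ (k : ℕ) : (D.P.map (D.β : MvPowerSeries (Fin (d + 1)) K →+* WS d K)).coeff k ∈
    IsLocalRing.maximalIdeal (WS d K) ^ (D.P.natDegree - k) := by
  rw [Polynomial.coeff_map]
  exact (algEquiv_mem_maximalIdeal_pow D.β.toRingEquiv _ _).2 (D.cm k)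

theorem monicβ : (D.P.map (D.β : MvPowerSeries (Fin (d + 1)) K →+* WS d K)).Monic :=
  D.hW.isDistinguishedAt.monic.map _

theorem degβ : (D.P.map (D.β : MvPowerSeries (Fin (d + 1)) K →+* WS d K)).natDegree =
    D.P.natDegree := D.hW.isDistinguishedAt.monic.natDegree_map _

theorem exists_b [IsAlgClosed K] [CharZero K] :
    ∃ b : Fin D.P.natDegree → WS d K, ∀ l, D.G l D.y = PowerSeries.X ^ D.M * b l := by
  have h1 : ∀ l, ∃ b, D.G l D.y = PowerSeries.X ^ D.M * b := by
    intro l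
    rw [G_y]
    exact slopes D.hM D.monicβ D.degβ D.cmβ D.hρ D.hd D.eval_dvd l
  choose b hb using h1
  exact ⟨b, hb⟩

theorem dich (h : MvPowerSeries (Fin (d + 2)) K) (k : ℕ) (hh : h ∣ g ^ k)
    (l : Fin D.P.natDegree) :
    D.G l h = 0 ∨ ∃ κ, Associated (D.G l h) (PowerSeries.X ^ κ) := by
  have h1 : D.p.σ h ∣ (D.P : PowerSeries (MvPowerSeries (Fin (d + 1)) K)) ^ k := by
    have h2 : D.p.σ h ∣ (D.p.σ g) ^ k := by
      rw [← map_pow]
      exact map_dvd D.p.σ hh
    rw [D.hW.eq_mul, mul_pow] at h2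
    exact (IsUnit.dvd_mul_right (D.hW.isUnit.pow k)).1 h2
  have h2 := Pool.Agent.Helper80.SP.pw_root (N := k) D.hW.isDistinguishedAt
    ((D.G l).comp (D.p.σ.symm : PowerSeries (MvPowerSeries (Fin (d + 1)) K) →ₐ[K]
      MvPowerSeries (Fin (d + 2)) K)) (ρ := D.ρ) (by
        have h3 : ((((D.G l).comp (D.p.σ.symm :
            PowerSeries (MvPowerSeries (Fin (d + 1)) K) →ₐ[K]
            MvPowerSeries (Fin (d + 2)) K)) : PowerSeries (MvPowerSeries (Fin (d + 1)) K) →+*
              WS d K).comp PowerSeries.C) =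
            (ram D.hM).comp (D.β : MvPowerSeries (Fin (d + 1)) K →+* WS d K) :=
          RingHom.ext fun b => D.G_C l b
        rw [h3, ← Polynomial.map_map]
        exact D.hρ) (by
        intro i j
        by_cases hij : i = j
        · rw [hij, sub_self]
          exact Or.inl rfl
        · exact Or.inr (D.hd i j hij)) (i := l) (D.G_X l) h1
  have h3 : ((D.G l).comp (D.p.σ.symm : PowerSeries (MvPowerSeries (Fin (d + 1)) K) →ₐ[K]
      MvPowerSeries (Fin (d + 2)) K)) (D.p.σ h) = D.G l h := by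
    change D.G l (D.p.σ.symm (D.p.σ h)) = _
    rw [AlgEquiv.symm_apply_apply]
  rw [h3] at h2
  exact h2

theorem hI' : I = Ideal.span {D.x, D.y} := by
  have h1 : I = Ideal.comap D.p.σ (Ideal.map D.p.σ I) :=
    (Ideal.comap_map_of_bijective D.p.σ D.p.σ.bijective).symm
  ext h
  constructor
  · intro hh
    have h2 : D.p.σ h ∈ Ideal.map D.p.σ I := Ideal.mem_map_of_mem _ hh
    rw [D.hI, Ideal.mem_span_pair] at h2
    obtain ⟨a, b, hab⟩ := h2
    rw [Ideal.mem_span_pair]
    refine ⟨D.p.σ.symm a, D.p.σ.symm b, ?_⟩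
    rw [x, y, ← map_mul, ← map_mul, ← map_add, hab, AlgEquiv.symm_apply_apply]
  · intro hh
    rw [h1, Ideal.mem_comap, D.hI]
    rw [Ideal.mem_span_pair] at hh ⊢
    obtain ⟨a, b, hab⟩ := hh
    refine ⟨D.p.σ a, D.p.σ b, ?_⟩
    rw [← hab, map_add, map_mul, map_mul, x, y, AlgEquiv.apply_symm_apply,
      AlgEquiv.apply_symm_apply]

end Dat

end Pool.Agent.Helper38.SB
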