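import Pool.Agent.Helper38.GP.LinA
import Pool.Agent.Helper38.EQ.WeiOrder
import Pool.Agent.Helper38.EQ.KeySmooth

/-! The degree of the Weierstrass polynomial of a germ, for a transversal projection. -/

namespace Pool.Agent.Helper38.SB

open MvPowerSeries Pool.Agent.Helper38.EQ Pool.Agent.Helper38.GP

/-- The coefficient of least degree of a power series on an arc. -/
theorem coeff_hom {n : ℕ} {K : Type} [Field K] (θ : MvPowerSeries (Fin n) K →ₐ[K] PowerSeries K)
    (h0 : ∀ j, PowerSeries.constantCoeff (θ (X j)) = 0) (f : MvPowerSeries (Fin n) K) (e : ℕ)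
    (hf : ∀ ν : Fin n →₀ ℕ, ν.degree < e → coeff ν f = 0) :
    PowerSeries.X ^ e ∣ θ f ∧ PowerSeries.coeff e (θ f) =
      homPart f e (fun j => PowerSeries.coeff 1 (θ (X j))) := by
  classical
  have hmap : ∀ (k : ℕ) (x : MvPowerSeries (Fin n) K),
      x ∈ IsLocalRing.maximalIdeal (MvPowerSeries (Fin n) K) ^ k → PowerSeries.X ^ k ∣ θ x := by
    intro k x hx
    have h1 : Ideal.map θ (IsLocalRing.maximalIdeal (MvPowerSeries (Fin n) K)) ≤
        Ideal.span {(PowerSeries.X : PowerSeries K)} := by
      rw [maximalIdeal_eq_coordIdeal, Ideal.map_le_iff_le_comap, coordIdeal, Ideal.span_le]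
      rintro _ ⟨i, _, rfl⟩
      change θ (X i) ∈ Ideal.span {(PowerSeries.X : PowerSeries K)}
      rw [Ideal.mem_span_singleton, PowerSeries.X_dvd_iff]
      exact h0 i
    have h2 : θ x ∈ Ideal.span {(PowerSeries.X : PowerSeries K)} ^ k := by
      refine (Ideal.pow_right_mono h1 k) ?_
      rw [← Ideal.map_pow]
      exact Ideal.mem_map_of_mem _ hx
    rwa [Ideal.span_singleton_pow, Ideal.mem_span_singleton] at h2
  have hfe : f ∈ IsLocalRing.maximalIdeal (MvPowerSeries (Fin n) K) ^ e := by
    rw [mem_maximalIdeal_pow_iff]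
    intro ν hν
    exact hf ν (by rwa [Finsupp.degree_eq_sum])
  refine ⟨hmap e f hfe, ?_⟩
  choose a ha using fun j => PowerSeries.X_dvd_iff.2 (h0 j)
  have ha1 : ∀ j, PowerSeries.coeff 1 (θ (X j)) = PowerSeries.constantCoeff (a j) := by
    intro j
    rw [ha, ← zero_add 1, PowerSeries.coeff_succ_X_mul,
      PowerSeries.coeff_zero_eq_constantCoeff_apply]
  let P : MvPolynomial (Fin n) K :=
    ∑ ν ∈ Finset.univ.finsuppAntidiag e, MvPolynomial.monomial ν (coeff ν f)
  have hP : f - (P : MvPowerSeries (Fin n) K) ∈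
      IsLocalRing.maximalIdeal (MvPowerSeries (Fin n) K) ^ (e + 1) := by
    rw [mem_maximalIdeal_pow_iff]
    intro μ hμ
    rw [map_sub, MvPolynomial.coeff_coe, MvPolynomial.coeff_sum]
    simp only [MvPolynomial.coeff_monomial]
    rw [Finset.sum_ite_eq' (Finset.univ.finsuppAntidiag e) μ (fun ν => coeff ν f)]
    split_ifs with h1
    · rw [sub_self]
    · rw [sub_zero]
      apply hf
      rw [Finset.mem_finsuppAntidiag] at h1
      rw [Finsupp.degree_eq_sum]
      have h2 : ∑ i, μ i ≠ e := fun h2 => h1 ⟨h2, Finset.subset_univ _⟩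
      omega
  have hθP : θ (P : MvPowerSeries (Fin n) K) = ∑ ν ∈ Finset.univ.finsuppAntidiag e,
      algebraMap K (PowerSeries K) (coeff ν f) * ∏ j, θ (X j) ^ ν j := by
    have h1 : (θ.comp (MvPolynomial.coeToMvPowerSeries.algHom (R := K) (σ := Fin n) K)) =
        MvPolynomial.aeval fun j => θ (X j) := by
      apply MvPolynomial.algHom_ext
      intro i
      rw [MvPolynomial.aeval_X]
      change θ ((MvPolynomial.X i : MvPolynomial (Fin n) K) : MvPowerSeries (Fin n) K) = _
      rw [MvPolynomial.coe_X]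
    have h2 := DFunLike.congr_fun h1 P
    change θ (P : MvPowerSeries (Fin n) K) = _ at h2
    rw [h2, map_sum]
    refine Finset.sum_congr rfl fun ν _ => ?_
    rw [MvPolynomial.aeval_monomial, Finsupp.prod_fintype _ _ (fun i => pow_zero _)]
  have h3 : PowerSeries.coeff e (θ f) = PowerSeries.coeff e (θ (P : MvPowerSeries (Fin n) K)) := by
    obtain ⟨y, hy⟩ := hmap (e + 1) _ hP
    have h4 : θ f = θ (P : MvPowerSeries (Fin n) K) + PowerSeries.X ^ (e + 1) * y := by
      rw [← hy, map_sub]
      ring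
    rw [h4, map_add, PowerSeries.coeff_X_pow_mul', if_neg (by omega), add_zero]
  rw [h3, hθP, map_sum, homPart]
  refine Finset.sum_congr rfl fun ν hν => ?_
  rw [Finset.mem_finsuppAntidiag] at hν
  have h5 : ∏ j, θ (X j) ^ ν j = PowerSeries.X ^ e * ∏ j, a j ^ ν j := by
    have h6 : ∏ j, θ (X j) ^ ν j = ∏ j, (PowerSeries.X ^ ν j * a j ^ ν j) :=
      Finset.prod_congr rfl fun j _ => by rw [ha, mul_pow]
    rw [h6, Finset.prod_mul_distrib, Finset.prod_pow_eq_pow_sum, hν.1]
  rw [h5]
  change PowerSeries.coeff e (PowerSeries.C (coeff ν f) * _) = _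
  rw [PowerSeries.coeff_C_mul, PowerSeries.coeff_X_pow_mul', if_pos le_rfl, Nat.sub_self,
    PowerSeries.coeff_zero_eq_constantCoeff_apply, map_prod]
  congr 1
  refine Finset.prod_congr rfl fun j _ => ?_
  rw [map_pow, ha1]

/-- The direction of the fibres is unique. -/
theorem exists_smul {n : ℕ} {K : Type} [Field K] (p : Proj n K)
    {z : Fin n → MvPowerSeries (Fin (n + 1)) K} (hz : LinIndep z)
    (hσ : ∀ i, p.σ (z i) = PowerSeries.C (X i)) {v : Fin (n + 1) → K}
    (hv : ∀ i, lin (z i) v = 0) : ∃ c : K, v = c • fun j => p.tr (X j) := by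
  let M : Matrix (Fin n) (Fin (n + 1)) K := fun i j => coeff (Finsupp.single j 1) (z i)
  have hMv : ∀ u : Fin (n + 1) → K, (∀ i, lin (z i) u = 0) → u ∈ LinearMap.ker M.mulVecLin := by
    intro u hu
    rw [LinearMap.mem_ker]
    funext i
    exact hu i
  have hrank : M.rank = n := by
    have h1 : LinearIndependent K M.row := hz.2
    have h2 := h1.rank_matrix
    rwa [Fintype.card_fin] at h2
  have hker : Module.finrank K (LinearMap.ker M.mulVecLin) = 1 := by
    have h1 := LinearMap.finrank_range_add_finrank_ker M.mulVecLin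
    rw [Module.finrank_fin_fun] at h1
    change M.rank + _ = _ at h1
    omega
  let w : Fin (n + 1) → K := fun j => p.tr (X j)
  have hw : ∀ i, lin (z i) w = 0 := by
    intro i
    rw [← p.tr_eq_lin]
    change constantCoeff (PowerSeries.coeff 1 (p.σ (z i))) = 0
    rw [hσ, PowerSeries.coeff_C, if_neg one_ne_zero, map_zero]
  have hw0 : w ≠ 0 := by
    intro h0
    have h1 : p.tr (p.σ.symm PowerSeries.X) = 1 := by
      change constantCoeff (PowerSeries.coeff 1 (p.σ (p.σ.symm PowerSeries.X))) = 1
      rw [AlgEquiv.apply_symm_apply, PowerSeries.coeff_one_X, map_one]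
    rw [p.tr_eq_lin] at h1
    change lin _ w = 1 at h1
    rw [h0] at h1
    simp [lin] at h1
  obtain ⟨c, hc⟩ := (finrank_eq_one_iff_of_nonzero' (⟨w, hMv w hw⟩ : LinearMap.ker M.mulVecLin)
    (fun h2 => hw0 (congrArg Subtype.val h2))).1 hker ⟨v, hMv v hv⟩
  exact ⟨c, (congrArg Subtype.val hc).symm⟩

/-- The restriction of a power series to the fibre through the origin. -/
noncomputable def fib {n : ℕ} {K : Type} [Field K] (p : Proj n K) :
    MvPowerSeries (Fin (n + 1)) K →ₐ[K] PowerSeries K :=
  { (PowerSeries.map (constantCoeff (σ := Fin n) (R := K))).comp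
      (p.σ : MvPowerSeries (Fin (n + 1)) K →+* PowerSeries (MvPowerSeries (Fin n) K)) with
    commutes' := fun a => by
      have h1 : p.σ (algebraMap K (MvPowerSeries (Fin (n + 1)) K) a) = PowerSeries.C (C a) := by
        rw [AlgEquiv.commutes, IsScalarTower.algebraMap_apply K (MvPowerSeries (Fin n) K)
          (PowerSeries (MvPowerSeries (Fin n) K))]
        rfl
      have h2 : PowerSeries.map (constantCoeff (σ := Fin n) (R := K))
          (p.σ (algebraMap K (MvPowerSeries (Fin (n + 1)) K) a)) = PowerSeries.C a := by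
        rw [h1, PowerSeries.map_C, constantCoeff_C]
      exact h2 }

theorem fib_apply {n : ℕ} {K : Type} [Field K] (p : Proj n K) (h : MvPowerSeries (Fin (n + 1)) K) :
    fib p h = PowerSeries.map constantCoeff (p.σ h) := rfl

/-- The order of `h` on the fibre through the origin. -/
theorem coeff_fib {n : ℕ} {K : Type} [Field K] (p : Proj n K) (f : MvPowerSeries (Fin (n + 1)) K)
    (e : ℕ) (hf : ∀ ν : Fin (n + 1) →₀ ℕ, ν.degree < e → coeff ν f = 0) :
    PowerSeries.X ^ e ∣ fib p f ∧
      PowerSeries.coeff e (fib p f) = homPart f e (fun j => p.tr (X j)) := by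
  have h0 : ∀ j, PowerSeries.constantCoeff (fib p (X j)) = 0 := by
    intro j
    have h1 := (algEquiv_mem_maximalIdeal_pow p.σ.toRingEquiv 1 (X j)).2 (by
      rw [pow_one, mem_maximalIdeal_iff_constantCoeff, constantCoeff_X])
    rw [pow_one] at h1
    change p.σ (X j) ∈ _ at h1
    rw [IsLocalRing.mem_maximalIdeal, mem_nonunits_iff, PowerSeries.isUnit_iff_constantCoeff,
      MvPowerSeries.isUnit_iff_constantCoeff, isUnit_iff_ne_zero, not_not] at h1
    rw [fib_apply, ← PowerSeries.coeff_zero_eq_constantCoeff_apply, PowerSeries.coeff_map,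
      PowerSeries.coeff_zero_eq_constantCoeff_apply]
    exact h1
  exact coeff_hom (fib p) h0 f e hf

/-- The order of a Weierstrass polynomial on the fibre through the origin. -/
theorem fib_wei {n : ℕ} {K : Type} [Field K] (p : Proj n K) {g : MvPowerSeries (Fin (n + 1)) K}
    {P : Polynomial (MvPowerSeries (Fin n) K)} {U : PowerSeries (MvPowerSeries (Fin n) K)}
    (hW : (p.σ g).IsWeierstrassFactorization P U) :
    Associated (fib p g) (PowerSeries.X ^ P.natDegree) := by
  have h1 : PowerSeries.map (constantCoeff (σ := Fin n) (R := K))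
      (P : PowerSeries (MvPowerSeries (Fin n) K)) = PowerSeries.X ^ P.natDegree := by
    apply PowerSeries.ext
    intro k
    rw [PowerSeries.coeff_map, Polynomial.coeff_coe, PowerSeries.coeff_X_pow]
    rcases lt_trichotomy k P.natDegree with h | h | h
    · rw [if_neg h.ne]
      have h2 := hW.isDistinguishedAt.mem h
      exact (mem_maximalIdeal_iff_constantCoeff _).1 h2
    · rw [if_pos h, h]
      have h2 : P.coeff P.natDegree = 1 := hW.isDistinguishedAt.monic
      rw [h2, map_one]
    · rw [if_neg h.ne', Polynomial.coeff_eq_zero_of_natDegree_lt h, map_zero]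
  rw [fib_apply, hW.eq_mul, map_mul, h1]
  exact (associated_mul_unit_left _ _ (hW.isUnit.map _))

/-- For a transversal projection the order of `g` is the degree of its Weierstrass polynomial. -/
theorem coeff_mem_of_transversal {n : ℕ} {K : Type} [Field K] (p : Proj n K)
    {z : Fin n → MvPowerSeries (Fin (n + 1)) K} (hz : LinIndep z)
    (hσ : ∀ i, p.σ (z i) = PowerSeries.C (X i)) {g : MvPowerSeries (Fin (n + 1)) K}
    {P : Polynomial (MvPowerSeries (Fin n) K)} {U : PowerSeries (MvPowerSeries (Fin n) K)}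
    (hW : (p.σ g).IsWeierstrassFactorization P U) (ht : Transversal g z) :
    ∀ k, P.coeff k ∈ IsLocalRing.maximalIdeal (MvPowerSeries (Fin n) K) ^ (P.natDegree - k) := by
  classical
  obtain ⟨v, e, hv, he, hge⟩ := ht
  obtain ⟨c, rfl⟩ := exists_smul p hz hσ hv
  have h1 : homPart g e (c • fun j => p.tr (X j)) = c ^ e * homPart g e fun j => p.tr (X j) := by
    rw [homPart, homPart, Finset.mul_sum]
    refine Finset.sum_congr rfl fun ν hν => ?_
    rw [Finset.mem_finsuppAntidiag] at hν
    simp only [Pi.smul_apply, smul_eq_mul, mul_pow]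
    rw [Finset.prod_mul_distrib, Finset.prod_pow_eq_pow_sum, hν.1]
    ring
  rw [h1] at hge
  have h2 := right_ne_zero_of_mul hge
  obtain ⟨h3, h4⟩ := coeff_fib p g e he
  have h5 := fib_wei p hW
  have h6 : e ≤ P.natDegree := by
    have h7 : (PowerSeries.X : PowerSeries K) ^ e ∣ PowerSeries.X ^ P.natDegree := h3.trans h5.dvd
    rw [PowerSeries.X_pow_dvd_iff] at h7
    by_contra hcon
    have h8 := h7 P.natDegree (by omega)
    rw [PowerSeries.coeff_X_pow_self] at h8
    exact one_ne_zero h8
  have h7 : P.natDegree ≤ e := by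
    have h8 := h5.symm.dvd
    rw [PowerSeries.X_pow_dvd_iff] at h8
    by_contra hcon
    exact h2 (h4 ▸ h8 e (by omega))
  have h8 : P.natDegree = e := le_antisymm h7 h6
  have hg : g ∈ IsLocalRing.maximalIdeal (MvPowerSeries (Fin (n + 1)) K) ^ P.natDegree := by
    rw [h8, mem_maximalIdeal_pow_iff]
    intro ν hν
    exact he ν (by rwa [Finsupp.degree_eq_sum])
  have h9 := coeff_mem_pow P U hW.isUnit (by
    rw [← hW.eq_mul]
    exact (algEquiv_mem_maximalIdeal_pow
      (p.σ.toRingEquiv.trans (finSuccEquiv K n).symm.toRingEquiv) P.natDegree g).2 hg)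
  intro k
  rcases le_or_gt k P.natDegree with hk | hk
  · have h10 := h9 (P.natDegree - k) (Nat.sub_le _ _)
    rwa [Nat.sub_sub_self hk] at h10
  · rw [Polynomial.coeff_eq_zero_of_natDegree_lt hk]
    exact Ideal.zero_mem _

end Pool.Agent.Helper38.SB
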