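import Pool.Agent.Helper38.SB.Slopes
import Pool.Agent.Helper38.SB.Trans
import Pool.Agent.Helper38.GP.ArcA
import Pool.Agent.Helper38.GP.LiftRoots
import Pool.Agent.Helper38.ED.Eval
import Pool.Agent.Helper80.SP.Pw

/-! Block J: the data of an equisingular family of plane curves, in coordinates. -/

namespace Pool.Agent.Helper38.SB

open MvPowerSeries Pool.Agent.Helper38.EQ Pool.Agent.Helper38.GP Pool.Agent.Helper85.SB

/-- The first coordinate can be taken to be `f`. -/
theorem exists_coord {d : ℕ} {K : Type} [Field K] {f : MvPowerSeries (Fin (d + 1)) K}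
    (h1 : f ∈ IsLocalRing.maximalIdeal (MvPowerSeries (Fin (d + 1)) K))
    (h2 : f ∉ IsLocalRing.maximalIdeal (MvPowerSeries (Fin (d + 1)) K) ^ 2) :
    ∃ τ : MvPowerSeries (Fin (d + 1)) K ≃ₐ[K] MvPowerSeries (Fin (d + 1)) K, τ (X 0) = f := by
  classical
  have h3 : constantCoeff f = 0 := (mem_maximalIdeal_iff_constantCoeff f).1 h1
  obtain ⟨j₀, hj₀⟩ : ∃ j, coeff (Finsupp.single j 1) f ≠ 0 := by
    by_contra hcon
    push Not at hcon
    exact h2 ((Pool.Agent.Helper38.ED.LIBasic1_mem_sq_iff f).2 ⟨h3, hcon⟩)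
  let y : Fin (d + 1) → MvPowerSeries (Fin (d + 1)) K :=
    Fin.cons f fun i => X (j₀.succAbove i)
  have hy0 : y 0 = f := rfl
  have hys : ∀ i : Fin d, y i.succ = X (j₀.succAbove i) := fun i => rfl
  have hc : ∀ i, constantCoeff (y i) = 0 := by
    intro i
    refine Fin.cases ?_ (fun i => ?_) i
    · exact h3
    · rw [hys, constantCoeff_X]
  have hdet : (Matrix.of fun i j => coeff (Finsupp.single j 1) (y i)).det ≠ 0 := by
    intro hdet
    obtain ⟨v, hv0, hv⟩ := Matrix.exists_mulVec_eq_zero_iff.2 hdet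
    apply hv0
    have h4 : ∀ i, v (j₀.succAbove i) = 0 := by
      intro i
      have h5 := congrFun hv i.succ
      simp only [Matrix.mulVec, dotProduct, Matrix.of_apply, hys, Pi.zero_apply] at h5
      rw [Finset.sum_eq_single (j₀.succAbove i)] at h5
      · rw [coeff_X, if_pos rfl, one_mul] at h5
        exact h5
      · intro b _ hb
        rw [coeff_X, if_neg, zero_mul]
        intro h6
        exact hb ((Finsupp.single_left_inj one_ne_zero).mp h6)
      · intro h6
        exact absurd (Finset.mem_univ _) h6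
    have h5 := congrFun hv 0
    simp only [Matrix.mulVec, dotProduct, Matrix.of_apply, hy0, Pi.zero_apply] at h5
    rw [Fin.sum_univ_succAbove _ j₀] at h5
    simp only [h4, mul_zero, Finset.sum_const_zero, add_zero] at h5
    have h6 : v j₀ = 0 := (mul_eq_zero.1 h5).resolve_left hj₀
    funext j
    rcases Fin.eq_self_or_eq_succAbove j₀ j with h7 | ⟨i, h7⟩
    · rw [h7]
      exact h6
    · rw [h7]
      exact h4 i
  obtain ⟨τ, hτ⟩ := exists_algEquiv y (span_eq_of_linear y hc hdet)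
  exact ⟨τ, hτ 0⟩

/-- The data of an equisingular family of plane curves, in coordinates. -/
structure Dat {d : ℕ} {K : Type} [Field K] (g : MvPowerSeries (Fin (d + 2)) K)
    (I : Ideal (MvPowerSeries (Fin (d + 2)) K)) where
  /-- the coordinates -/
  p : Proj (d + 1) K
  /-- the coordinates of the base -/
  β : MvPowerSeries (Fin (d + 1)) K ≃ₐ[K] WS d K
  /-- the Weierstrass polynomial -/
  P : Polynomial (MvPowerSeries (Fin (d + 1)) K)
  /-- the unit -/
  U : PowerSeries (MvPowerSeries (Fin (d + 1)) K)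
  hW : (p.σ g).IsWeierstrassFactorization P U
  cm : ∀ k, P.coeff k ∈
    IsLocalRing.maximalIdeal (MvPowerSeries (Fin (d + 1)) K) ^ (P.natDegree - k)
  /-- the ramification -/
  M : ℕ
  hM : M ≠ 0
  /-- the roots -/
  ρ : Fin P.natDegree → WS d K
  hρ : (P.map (β : MvPowerSeries (Fin (d + 1)) K →+* WS d K)).map (ram hM) =
    ∏ i, (Polynomial.X - Polynomial.C (ρ i))
  ρm : ∀ i, ρ i ∈ IsLocalRing.maximalIdeal (WS d K)
  hd : ∀ i j, i ≠ j → ∃ e, Associated (ρ i - ρ j) (PowerSeries.X ^ e)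
  /-- the axis -/
  τ : MvPowerSeries (Fin (d + 1)) K
  τm : τ ∈ IsLocalRing.maximalIdeal (MvPowerSeries (Fin (d + 1)) K)
  hI : Ideal.map p.σ I = Ideal.span {PowerSeries.C (β.symm PowerSeries.X),
    PowerSeries.X - PowerSeries.C τ}
  gI : g ∈ I
  two : 2 ≤ P.natDegree

theorem exists_dat {d : ℕ} {K : Type} [Field K] [IsAlgClosed K] [CharZero K]
    {g : MvPowerSeries (Fin (d + 2)) K} {I : Ideal (MvPowerSeries (Fin (d + 2)) K)}
    (h : Equi (Trans K) 1 (d + 2) g I) : Nonempty (Dat g I) := by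
  classical
  obtain ⟨hgI, z, hT, hpar, hperm, g₁, I₁, ⟨σ, P, hσ, ⟨U, hU⟩, hred, hI₁⟩, hg1, hg2, hI₁'⟩ := h
  let p : Proj (d + 1) K := ⟨σ.equiv⟩
  have hσ' : ∀ i, p.σ (z i) = PowerSeries.C (X i) := hσ
  have hW : (p.σ g).IsWeierstrassFactorization P U := hU
  obtain ⟨τ, hτ⟩ := exists_coord hg1 hg2
  let β : MvPowerSeries (Fin (d + 1)) K ≃ₐ[K] WS d K := τ.symm.trans (finSuccEquiv K d)
  have hβ : β g₁ = PowerSeries.X := by
    change finSuccEquiv K d (τ.symm g₁) = _
    rw [← hτ, AlgEquiv.symm_apply_apply, finSuccEquiv_X_zero]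
  have hβ' : β.symm PowerSeries.X = g₁ := by
    rw [← hβ, AlgEquiv.symm_apply_apply]
  have hred' : Ideal.span {g₁} = (Ideal.span {P.discr}).radical := hred
  -- the discriminant divides a power of `g₁`
  obtain ⟨k, hk⟩ : ∃ k, P.discr ∣ g₁ ^ k := by
    have h1 : g₁ ∈ (Ideal.span {P.discr}).radical := by
      rw [← hred']
      exact Ideal.mem_span_singleton_self g₁
    obtain ⟨k, hk⟩ := h1
    exact ⟨k, Ideal.mem_span_singleton.1 hk⟩
  have hnu : ¬ IsUnit P.discr := by
    intro hu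
    have h1 : Ideal.span {P.discr} = ⊤ := Ideal.span_singleton_eq_top.2 hu
    rw [h1, Ideal.radical_top, Ideal.span_singleton_eq_top] at hred'
    exact hg1 hred'
  have htwo : 2 ≤ P.natDegree := by
    by_contra hcon
    push Not at hcon
    apply hnu
    have hm := hW.isDistinguishedAt.monic
    interval_cases hN : P.natDegree
    · rw [hm.natDegree_eq_zero.1 hN]
      have h1 : (1 : Polynomial (MvPowerSeries (Fin (d + 1)) K)) = Polynomial.C 1 := rfl
      rw [h1, Polynomial.discr_C]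
      exact isUnit_one
    · rw [Polynomial.discr_of_degree_eq_one]
      · exact isUnit_one
      · rw [Polynomial.degree_eq_natDegree hm.ne_zero, hN]
        rfl
  have hloc : ∀ x ∈ IsLocalRing.maximalIdeal (MvPowerSeries (Fin (d + 1)) K),
      (β : MvPowerSeries (Fin (d + 1)) K →ₐ[K] WS d K) x ∈
        IsLocalRing.maximalIdeal (WS d K) := by
    intro x hx hu
    apply hx
    have h1 := hu.map β.symm
    change IsUnit (β.symm (β x)) at h1
    rwa [AlgEquiv.symm_apply_apply] at h1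
  obtain ⟨M, hM, ρ, hρ, hρm, hd⟩ := exists_roots hW.isDistinguishedAt
    (β : MvPowerSeries (Fin (d + 1)) K →ₐ[K] WS d K) hloc (k := k) (by
      have h1 := map_dvd (β : MvPowerSeries (Fin (d + 1)) K →ₐ[K] WS d K) hk
      rw [map_pow] at h1
      change _ ∣ (β g₁) ^ k at h1
      rwa [hβ] at h1)
  -- the axis
  have hItop : I ≠ ⊤ := by
    intro hI
    have h1 : I₁ = ⊤ := by
      rw [hI₁, Coord.image, hI, Ideal.map_top, Ideal.comap_top]
    rw [hI₁', Ideal.span_singleton_eq_top] at h1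
    exact hg1 h1
  obtain ⟨τ₀, hτ₀, hτI⟩ := exists_graph p hpar.1 hσ' hItop hperm
  have hI : Ideal.map p.σ I = Ideal.span {PowerSeries.C (β.symm PowerSeries.X),
      PowerSeries.X - PowerSeries.C τ₀} := by
    rw [hβ']
    have hcom : ∀ φ₀, PowerSeries.C φ₀ ∈ Ideal.map p.σ I ↔ φ₀ ∈ Ideal.span {g₁} := by
      intro φ₀
      rw [← hI₁', hI₁]
      rfl
    apply le_antisymm
    · intro φ hφ
      obtain ⟨ε, -, -, hε⟩ := Pool.Agent.Helper38.ED.exists_eval τ₀ hτ₀
      obtain ⟨q, hq⟩ := hε φ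
      have h1 : PowerSeries.C (ε φ) ∈ Ideal.map p.σ I := by
        have h2 : PowerSeries.C (ε φ) = φ - (PowerSeries.X - PowerSeries.C τ₀) * q := by
          rw [eq_sub_iff_add_eq, ← hq]
        rw [h2]
        exact Ideal.sub_mem _ hφ (Ideal.mul_mem_right _ _ hτI)
      rw [hcom, Ideal.mem_span_singleton] at h1
      obtain ⟨c, hc⟩ := h1
      rw [Ideal.mem_span_pair]
      refine ⟨PowerSeries.C c, q, ?_⟩
      rw [hq, hc, map_mul]
      ring
    · rw [Ideal.span_le]
      intro φ hφ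
      rcases hφ with rfl | hφ
      · exact (hcom g₁).2 (Ideal.mem_span_singleton_self g₁)
      · rw [Set.mem_singleton_iff.1 hφ]
        exact hτI
  refine ⟨⟨p, β, P, U, hW, coeff_mem_of_transversal p hpar.1 hσ' hW hT, M, hM, ρ, ?_, hρm, hd,
    τ₀, hτ₀, hI, hgI, htwo⟩⟩
  rw [Polynomial.map_map]
  exact hρ

end Pool.Agent.Helper38.SB
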