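import Pool.Agent.Helper38.SB.Arcs

/-! Block J: the coordinates of an equisingular family of plane curves. -/

namespace Pool.Agent.Helper38.SB

open MvPowerSeries Pool.Agent.Helper38.EQ Pool.Agent.Helper38.GP Pool.Agent.Helper85.SB

variable {d : ℕ} {K : Type} [Field K]

/-- Generators of the maximal ideal of `K⟦w⟧⟦s⟧`. -/
theorem mem_gen {x : WS d K} (hx : x ∈ IsLocalRing.maximalIdeal (WS d K)) :
    ∃ (a : WS d K) (c : Fin d → WS d K),
      x = PowerSeries.X * a + ∑ j, PowerSeries.C (X j) * c j := by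
  classical
  have h1 : PowerSeries.X ∣ x - PowerSeries.C (PowerSeries.constantCoeff x) := by
    rw [PowerSeries.X_dvd_iff, map_sub, PowerSeries.constantCoeff_C, sub_self]
  obtain ⟨a, ha⟩ := h1
  have h2 : PowerSeries.constantCoeff x ∈ IsLocalRing.maximalIdeal (MvPowerSeries (Fin d) K) := by
    rw [mem_maximalIdeal_iff_constantCoeff]
    exact (mem_WS x).1 hx
  rw [maximalIdeal_eq_coordIdeal, coordIdeal] at h2
  have h3 : (X '' ((Finset.univ : Finset (Fin d)) : Set (Fin d)) :
      Set (MvPowerSeries (Fin d) K)) = Set.range fun j : Fin d => X j := by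
    rw [Finset.coe_univ, Set.image_univ]
  have h4 : PowerSeries.constantCoeff x ∈
      Ideal.span (Set.range fun j : Fin d => (X j : MvPowerSeries (Fin d) K)) := by
    rw [← h3]
    exact h2
  rw [Ideal.mem_span_range_iff_exists_fun] at h4
  obtain ⟨c, hc⟩ := h4
  refine ⟨a, fun j => PowerSeries.C (c j), ?_⟩
  rw [← ha]
  have h5 : ∑ j, PowerSeries.C (X j) * PowerSeries.C (c j) =
      PowerSeries.C (PowerSeries.constantCoeff x) := by
    rw [← hc, map_sum]
    refine Finset.sum_congr rfl fun j _ => ?_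
    rw [map_mul, mul_comm]
  rw [h5]
  ring

namespace Dat

variable {g : MvPowerSeries (Fin (d + 2)) K} {I : Ideal (MvPowerSeries (Fin (d + 2)) K)}
  (D : Dat g I)

theorem x_mem : D.x ∈ IsLocalRing.maximalIdeal (MvPowerSeries (Fin (d + 2)) K) := by
  rw [← map_algEquiv_mem D.p.σ, x, AlgEquiv.apply_symm_apply, mem_WS,
    PowerSeries.constantCoeff_C, ← mem_maximalIdeal_iff_constantCoeff, map_algEquiv_mem,
    mem_WS, PowerSeries.constantCoeff_X, map_zero]

theorem y_mem : D.y ∈ IsLocalRing.maximalIdeal (MvPowerSeries (Fin (d + 2)) K) := by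
  rw [← map_algEquiv_mem D.p.σ, y, AlgEquiv.apply_symm_apply, mem_WS, map_sub,
    PowerSeries.constantCoeff_C, PowerSeries.constantCoeff_X, zero_sub, map_neg, neg_eq_zero]
  exact (mem_maximalIdeal_iff_constantCoeff _).1 D.τm

theorem t_mem (j : Fin d) :
    D.t j ∈ IsLocalRing.maximalIdeal (MvPowerSeries (Fin (d + 2)) K) := by
  rw [← map_algEquiv_mem D.p.σ, t, AlgEquiv.apply_symm_apply, mem_WS,
    PowerSeries.constantCoeff_C, ← mem_maximalIdeal_iff_constantCoeff, map_algEquiv_mem,
    mem_WS, PowerSeries.constantCoeff_C, constantCoeff_X]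

theorem span_gen : Ideal.span (Set.range (Sum.elim ![D.x, D.y] D.t)) =
    IsLocalRing.maximalIdeal (MvPowerSeries (Fin (d + 2)) K) := by
  classical
  set J := Ideal.span (Set.range (Sum.elim ![D.x, D.y] D.t)) with hJ
  have hx : D.x ∈ J := Ideal.subset_span ⟨Sum.inl 0, rfl⟩
  have hy : D.y ∈ J := Ideal.subset_span ⟨Sum.inl 1, rfl⟩
  have ht : ∀ j, D.t j ∈ J := fun j => Ideal.subset_span ⟨Sum.inr j, rfl⟩
  apply le_antisymm
  · rw [hJ, Ideal.span_le]
    rintro _ ⟨i | j, rfl⟩
    · fin_cases i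
      · exact D.x_mem
      · exact D.y_mem
    · exact D.t_mem j
  · intro h hh
    obtain ⟨ε, -, -, hε⟩ := Pool.Agent.Helper38.ED.exists_eval D.τ D.τm
    obtain ⟨q, hq⟩ := hε (D.p.σ h)
    have h1 : ε (D.p.σ h) ∈ IsLocalRing.maximalIdeal (MvPowerSeries (Fin (d + 1)) K) := by
      rw [mem_maximalIdeal_iff_constantCoeff]
      rw [← map_algEquiv_mem D.p.σ, hq, mem_WS, map_add, map_mul, map_sub,
        PowerSeries.constantCoeff_C, PowerSeries.constantCoeff_C, PowerSeries.constantCoeff_X,
        map_add, map_mul, zero_sub, map_neg, (mem_maximalIdeal_iff_constantCoeff _).1 D.τm,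
        neg_zero, zero_mul, add_zero] at hh
      exact hh
    rw [← map_algEquiv_mem D.β] at h1
    obtain ⟨a, c, hac⟩ := mem_gen h1
    have h2 : ε (D.p.σ h) = D.β.symm PowerSeries.X * D.β.symm a +
        ∑ j, D.β.symm (PowerSeries.C (X j)) * D.β.symm (c j) := by
      apply D.β.injective
      rw [hac, map_add, map_mul, map_sum, AlgEquiv.apply_symm_apply, AlgEquiv.apply_symm_apply]
      congr 1
      refine Finset.sum_congr rfl fun j _ => ?_
      rw [map_mul, AlgEquiv.apply_symm_apply, AlgEquiv.apply_symm_apply]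
    have h3 : h = D.x * D.p.σ.symm (PowerSeries.C (D.β.symm a)) +
        (∑ j, D.t j * D.p.σ.symm (PowerSeries.C (D.β.symm (c j)))) + D.y * D.p.σ.symm q := by
      apply D.p.σ.injective
      have h4 : D.p.σ (∑ j, D.t j * D.p.σ.symm (PowerSeries.C (D.β.symm (c j)))) =
          ∑ j, PowerSeries.C (D.β.symm (PowerSeries.C (X j))) *
            PowerSeries.C (D.β.symm (c j)) := by
        rw [map_sum]
        refine Finset.sum_congr rfl fun j _ => ?_
        rw [map_mul, t, AlgEquiv.apply_symm_apply, AlgEquiv.apply_symm_apply]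
      rw [map_add, map_add, map_mul, map_mul, h4, x, y, AlgEquiv.apply_symm_apply,
        AlgEquiv.apply_symm_apply, AlgEquiv.apply_symm_apply, AlgEquiv.apply_symm_apply, hq, h2,
        map_add, map_mul, map_sum]
      simp only [map_mul]
    rw [h3]
    refine Ideal.add_mem _ (Ideal.add_mem _ (Ideal.mul_mem_right _ _ hx)
      (Ideal.sum_mem _ fun j _ => Ideal.mul_mem_right _ _ (ht j))) (Ideal.mul_mem_right _ _ hy)

theorem li' : LinIndep (Sum.elim ![D.x, D.y] D.t) := by
  classical
  let e : Fin 2 ⊕ Fin d ≃ Fin (d + 2) :=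
    finSumFinEquiv.trans (finCongr (Nat.add_comm 2 d))
  let v : Fin (d + 2) → MvPowerSeries (Fin (d + 2)) K := Sum.elim ![D.x, D.y] D.t ∘ e.symm
  have hr : Set.range v = Set.range (Sum.elim ![D.x, D.y] D.t) := by
    rw [Set.range_comp, e.symm.surjective.range_eq, Set.image_univ]
  obtain ⟨h0, hdet⟩ := linear_of_span_eq v (by rw [hr]; exact D.span_gen)
  have h1 : ∀ i, v (e i) = Sum.elim ![D.x, D.y] D.t i := fun i => by
    change Sum.elim ![D.x, D.y] D.t (e.symm (e i)) = _
    rw [Equiv.symm_apply_apply]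
  refine ⟨fun i => ?_, ?_⟩
  · rw [← h1]
    exact h0 (e i)
  · have h2 := (Matrix.linearIndependent_rows_of_det_ne_zero hdet).comp e e.injective
    have h3 : (fun i => fun j : Fin (d + 2) =>
        coeff (Finsupp.single j 1) (Sum.elim ![D.x, D.y] D.t i)) =
        (fun i => (Matrix.of fun i j => coeff (Finsupp.single j 1) (v i)) i) ∘ e := by
      funext i j
      rw [← h1]
      rfl
    rw [h3]
    exact h2

end Dat

end Pool.Agent.Helper38.SB
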