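import Pool.Agent.Helper38.SB.Li
import Pool.Agent.Helper85.SB.N5
import Pool.Agent.Helper85.SB.D2

/-! Block J: the order of a product of branches. -/

set_option linter.unusedSectionVars false

namespace Pool.Agent.Helper38.SB

open MvPowerSeries Pool.Agent.Helper38.EQ Pool.Agent.Helper38.GP Pool.Agent.Helper85.SB

variable {d : ℕ} {K : Type} [Field K] [IsAlgClosed K] [CharZero K]

omit [IsAlgClosed K] [CharZero K] in
/-- The order of `g` and its least part on the fibre direction. -/
private theorem Ord_g {g : MvPowerSeries (Fin (d + 2)) K}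
    {I : Ideal (MvPowerSeries (Fin (d + 2)) K)} (D : Dat g I) :
    HasOrd g D.P.natDegree ∧ homPart g D.P.natDegree (fun j => D.p.tr (X j)) ≠ 0 := by
  classical
  set N := D.P.natDegree with hN
  let 𝔪 := IsLocalRing.maximalIdeal (MvPowerSeries (Fin (d + 2)) K)
  have hC : ∀ (k : ℕ) (a : MvPowerSeries (Fin (d + 1)) K),
      a ∈ IsLocalRing.maximalIdeal (MvPowerSeries (Fin (d + 1)) K) ^ k →
      D.p.σ.symm (PowerSeries.C a) ∈ 𝔪 ^ k := fun k a ha =>
    Pool.Agent.Helper80.SP.symm_pow_mem D.p ha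
  have hX : D.p.σ.symm PowerSeries.X ∈ 𝔪 := by
    rw [IsLocalRing.mem_maximalIdeal, mem_nonunits_iff]
    intro hu
    have h1 := hu.map D.p.σ
    rw [AlgEquiv.apply_symm_apply] at h1
    exact PowerSeries.X_prime.not_isUnit h1
  have hP : D.p.σ.symm (D.P : PowerSeries (MvPowerSeries (Fin (d + 1)) K)) ∈ 𝔪 ^ N := by
    have h1 : (D.P : PowerSeries (MvPowerSeries (Fin (d + 1)) K)) =
        ∑ k ∈ Finset.range (N + 1), PowerSeries.C (D.P.coeff k) * PowerSeries.X ^ k := by
      conv_lhs => rw [D.P.as_sum_range_C_mul_X_pow]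
      rw [← Polynomial.coeToPowerSeries.ringHom_apply, map_sum]
      refine Finset.sum_congr rfl fun k _ => ?_
      rw [map_mul, map_pow, Polynomial.coeToPowerSeries.ringHom_apply,
        Polynomial.coeToPowerSeries.ringHom_apply, Polynomial.coe_C, Polynomial.coe_X]
    rw [h1, map_sum]
    refine Ideal.sum_mem _ fun k hk => ?_
    rw [map_mul, map_pow]
    have h2 := Ideal.mul_mem_mul (hC _ _ (D.cm k)) (Ideal.pow_mem_pow hX k)
    rw [← pow_add] at h2
    have h3 : D.P.natDegree - k + k = N := by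
      have := Finset.mem_range.1 hk
      omega
    rwa [h3] at h2
  have hg : g ∈ 𝔪 ^ N := by
    have h1 : g = D.p.σ.symm (D.P : PowerSeries (MvPowerSeries (Fin (d + 1)) K)) *
        D.p.σ.symm D.U := by
      rw [← map_mul, ← D.hW.eq_mul, AlgEquiv.symm_apply_apply]
    rw [h1]
    exact Ideal.mul_mem_right _ _ hP
  have hlow : ∀ ν : Fin (d + 2) →₀ ℕ, ν.degree < N → coeff ν g = 0 := by
    intro ν hν
    refine (mem_maximalIdeal_pow_iff N g).1 hg ν ?_
    rwa [← Finsupp.degree_eq_sum]
  have h2 := (coeff_fib D.p g N hlow).2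
  have h3 : PowerSeries.coeff N (fib D.p g) ≠ 0 := by
    obtain ⟨u, hu⟩ := (fib_wei D.p D.hW).symm
    rw [← hu, ← hN, PowerSeries.coeff_X_pow_mul', if_pos le_rfl, Nat.sub_self]
    have h4 := (PowerSeries.isUnit_iff_constantCoeff.1 u.isUnit).ne_zero
    rwa [← PowerSeries.coeff_zero_eq_constantCoeff_apply] at h4
  rw [h2] at h3
  exact ⟨hasOrd_of_homPart hlow h3, h3⟩

/-- The order of the equation of a set of branches is their number. -/
theorem Dat.hasOrd {g : MvPowerSeries (Fin (d + 2)) K} {I : Ideal (MvPowerSeries (Fin (d + 2)) K)}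
    (D : Dat g I) (L : Finset (Fin D.P.natDegree))
    {H : Polynomial (MvPowerSeries (Fin (d + 1)) K)}
    (hH : (H.map (D.β : MvPowerSeries (Fin (d + 1)) K →+* WS d K)).map (ram D.hM) =
      ∏ l ∈ L, (Polynomial.X - Polynomial.C (D.ρ l))) :
    HasOrd (D.p.σ.symm (H : PowerSeries (MvPowerSeries (Fin (d + 1)) K))) L.card := by
  classical
  have hcomp := isAdicComplete_mvPowerSeries (d + 1) K
  obtain ⟨hog, htg⟩ := Ord_g D
  let φ : MvPowerSeries (Fin (d + 1)) K →+* WS d K :=
    (ram D.hM).comp (D.β : MvPowerSeries (Fin (d + 1)) K →+* WS d K)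
  have hφ : Function.Injective φ := (ram_injective D.hM).comp D.β.injective
  have hHφ : H.map φ = ∏ l ∈ L, (Polynomial.X - Polynomial.C (D.ρ l)) := by
    rw [← hH, Polynomial.map_map]
  have hPφ : D.P.map φ = ∏ l, (Polynomial.X - Polynomial.C (D.ρ l)) := by
    rw [← D.hρ, Polynomial.map_map]
  have hmon : H.Monic := by
    apply Polynomial.monic_of_injective hφ
    rw [hHφ]
    exact Polynomial.monic_prod_of_monic _ _ fun l _ => Polynomial.monic_X_sub_C _
  have hdeg : H.natDegree = L.card := by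
    have h1 := congrArg Polynomial.natDegree hHφ
    rw [Polynomial.natDegree_map_eq_of_injective hφ, Polynomial.natDegree_prod_of_monic _ _
      fun l _ => Polynomial.monic_X_sub_C _] at h1
    simpa using h1
  have hdvd : H ∣ D.P := by
    apply dvd_of_map_dvd_gen φ hφ hmon
    rw [hHφ, hPφ]
    exact Finset.prod_dvd_prod_of_subset _ _ _ (Finset.subset_univ L)
  have hHg : D.p.σ.symm (H : PowerSeries (MvPowerSeries (Fin (d + 1)) K)) ∣ g := by
    obtain ⟨Q, hQ⟩ := hdvd
    refine ⟨D.p.σ.symm ((Q : PowerSeries (MvPowerSeries (Fin (d + 1)) K)) * D.U), ?_⟩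
    apply D.p.σ.injective
    rw [map_mul, AlgEquiv.apply_symm_apply, AlgEquiv.apply_symm_apply, D.hW.eq_mul, hQ,
      Polynomial.coe_mul, mul_assoc]
  -- `H` is distinguished
  have hres : ∀ b, res d K (φ b) = constantCoeff b := by
    intro b
    exact res_hom ((ramK D.hM).comp (D.β : MvPowerSeries (Fin (d + 1)) K →ₐ[K] WS d K)) b
  have hdist : H.IsDistinguishedAt (IsLocalRing.maximalIdeal (MvPowerSeries (Fin (d + 1)) K)) := by
    refine ⟨⟨fun {i} hi => ?_⟩, hmon⟩
    rw [mem_maximalIdeal_iff_constantCoeff, ← hres]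
    have h1 : (H.map φ).map (res d K) = Polynomial.X ^ L.card := by
      rw [hHφ, Polynomial.map_prod]
      have h2 : ∀ l ∈ L, (Polynomial.X - Polynomial.C (D.ρ l)).map (res d K) =
          (Polynomial.X : Polynomial K) := by
        intro l _
        have h3 : res d K (D.ρ l) = 0 := (mem_WS _).1 (D.ρm l)
        rw [Polynomial.map_sub, Polynomial.map_X, Polynomial.map_C, h3, map_zero, sub_zero]
      rw [Finset.prod_congr rfl h2, Finset.prod_const]
    have h2 := congrArg (fun q => Polynomial.coeff q i) h1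
    simp only [Polynomial.coeff_map, Polynomial.coeff_X_pow] at h2
    rw [h2, if_neg]
    omega
  obtain ⟨a, ha, hta⟩ := exists_ord_of_dvd hog htg hHg
  obtain ⟨H', V, hW', hd'⟩ := exists_wfac D.p ha hta
  have hW : (D.p.σ (D.p.σ.symm (H : PowerSeries
      (MvPowerSeries (Fin (d + 1)) K)))).IsWeierstrassFactorization H 1 := by
    rw [AlgEquiv.apply_symm_apply]
    exact ⟨hdist, isUnit_one, by rw [mul_one]⟩
  have h1 : H = H' := (hW.elim hW').1
  have h2 : L.card = a := by rw [← hdeg, h1, hd']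
  rw [h2]
  exact ha

end Pool.Agent.Helper38.SB
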