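import Pool.Agent.Helper38.SB.Li

/-! Block J: the radical of a divisor of a power of `g`. -/

namespace Pool.Agent.Helper38.SB

open MvPowerSeries Pool.Agent.Helper38.EQ Pool.Agent.Helper38.GP Pool.Agent.Helper85.SB

variable {d : ℕ} {K : Type} [Field K]

theorem rot_injective {ζ : K} (hζ : ζ ≠ 0) : Function.Injective (rot (d := d) ζ) := by
  intro x y h
  apply PowerSeries.ext
  intro n
  have h1 := congrArg (PowerSeries.coeff n) h
  change PowerSeries.coeff n (PowerSeries.rescale (C ζ) x) =
    PowerSeries.coeff n (PowerSeries.rescale (C ζ) y) at h1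
  rw [PowerSeries.coeff_rescale, PowerSeries.coeff_rescale, ← map_pow] at h1
  refine mul_left_cancel₀ ?_ h1
  intro h2
  have h3 := congrArg constantCoeff h2
  rw [constantCoeff_C, map_zero] at h3
  exact pow_ne_zero n hζ h3

theorem prod_inj {R : Type} [CommRing R] {N : ℕ} {ρ : Fin N → R} [DecidableEq R]
    (hρ : Function.Injective ρ) (L : Finset (Fin N)) :
    ∏ l ∈ L, (Polynomial.X - Polynomial.C (ρ l)) =
      ∏ a ∈ L.image ρ, (Polynomial.X - Polynomial.C a) := by
  rw [Finset.prod_image fun _ _ _ _ h => hρ h]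

namespace Dat

variable {g : MvPowerSeries (Fin (d + 2)) K} {I : Ideal (MvPowerSeries (Fin (d + 2)) K)}
  (D : Dat g I)

theorem ρ_injective : Function.Injective D.ρ := by
  intro i j h
  by_contra hij
  obtain ⟨e, he⟩ := D.hd i j hij
  rw [h, sub_self] at he
  exact pow_ne_zero e PowerSeries.X_ne_zero ((associated_zero_iff_eq_zero _).1 he.symm)

/-- The map of `K⟦y⟧[Y]` to `K⟦w⟧⟦s⟧[Y]`. -/
noncomputable def mp (H : Polynomial (MvPowerSeries (Fin (d + 1)) K)) : Polynomial (WS d K) :=
  (H.map (D.β : MvPowerSeries (Fin (d + 1)) K →+* WS d K)).map (ram D.hM)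

theorem mp_eq (H : Polynomial (MvPowerSeries (Fin (d + 1)) K)) :
    D.mp H = (H.map (D.β : MvPowerSeries (Fin (d + 1)) K →+* WS d K)).map (ram D.hM) := rfl

theorem β_injective :
    Function.Injective (D.β : MvPowerSeries (Fin (d + 1)) K →+* WS d K) := D.β.injective

theorem mp_injective : Function.Injective D.mp := fun _ _ h =>
  Polynomial.map_injective _ D.β_injective (Polynomial.map_injective _ (ram_injective D.hM) h)

/-- The Weierstrass polynomial of a divisor of a power of `g`. -/
theorem exists_wei {h : MvPowerSeries (Fin (d + 2)) K} {k : ℕ} (hh : h ∣ g ^ k) :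
    ∃ (H : Polynomial (MvPowerSeries (Fin (d + 1)) K))
      (V : PowerSeries (MvPowerSeries (Fin (d + 1)) K)) (T : Multiset (WS d K)),
      (D.p.σ h).IsWeierstrassFactorization H V ∧
      D.mp H = (T.map fun a => Polynomial.X - Polynomial.C a).prod ∧
      ∀ a ∈ T, ∃ l, a = D.ρ l := by
  classical
  have hcomp := isAdicComplete_mvPowerSeries (d + 1) K
  obtain ⟨h', hh'⟩ := hh
  have hFw : ∀ N : ℕ, (D.p.σ g ^ N).IsWeierstrassFactorization (D.P ^ N) (D.U ^ N) := by
    intro N
    induction N with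
    | zero =>
      rw [pow_zero, pow_zero, pow_zero]
      refine ⟨⟨⟨fun {n} hn => by simp at hn⟩, Polynomial.monic_one⟩, isUnit_one, ?_⟩
      rw [mul_one, Polynomial.coe_one]
    | succ N ih =>
      rw [pow_succ, pow_succ, pow_succ]
      exact ih.mul D.hW
  have h0 := (hFw k).map_ne_zero
  have h1 : D.p.σ g ^ k = D.p.σ h * D.p.σ h' := by rw [← map_pow, hh', map_mul]
  rw [h1, map_mul] at h0
  obtain ⟨H, V, hHV⟩ := PowerSeries.exists_isWeierstrassFactorization (left_ne_zero_of_mul h0)
  obtain ⟨H', V', hHV'⟩ := PowerSeries.exists_isWeierstrassFactorization (right_ne_zero_of_mul h0)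
  have h2 : (D.p.σ g ^ k).IsWeierstrassFactorization (H * H') (V * V') := by
    rw [h1]
    exact hHV.mul hHV'
  have h3 : H * H' = D.P ^ k := (h2.elim (hFw k)).1
  have h4 : D.mp H * D.mp H' =
      ((k • (Finset.univ.val.map D.ρ)).map fun a => Polynomial.X - Polynomial.C a).prod := by
    rw [mp, mp, ← Polynomial.map_mul, ← Polynomial.map_mul, h3, Polynomial.map_pow,
      Polynomial.map_pow, D.hρ, Multiset.map_nsmul, Multiset.prod_nsmul, Multiset.map_map]
    rfl
  obtain ⟨T, hT, hass⟩ := Pool.Agent.Helper80.SP.assoc_of_mul_eq_prod _ _ _ h4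
  refine ⟨H, V, T, hHV, ?_, ?_⟩
  · refine Polynomial.eq_of_monic_of_associated ((hHV.isDistinguishedAt.monic.map _).map _)
      (Polynomial.monic_multiset_prod_of_monic _ _ fun a _ => Polynomial.monic_X_sub_C a) hass
  · intro a ha
    have h5 := Multiset.mem_of_le hT ha
    obtain ⟨l, -, hl⟩ := Multiset.mem_map.1 (Multiset.mem_of_mem_nsmul h5)
    exact ⟨l, hl.symm⟩

/-- The product of the branches of a divisor of a power of `g` is defined over the base. -/
theorem exists_prod [IsAlgClosed K] [CharZero K] {h : MvPowerSeries (Fin (d + 2)) K} {k : ℕ}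
    (hh : h ∣ g ^ k) (L : Finset (Fin D.P.natDegree)) (hL : ∀ l, l ∈ L ↔ D.G l h = 0) :
    ∃ H : Polynomial (MvPowerSeries (Fin (d + 1)) K),
      D.mp H = ∏ l ∈ L, (Polynomial.X - Polynomial.C (D.ρ l)) := by
  classical
  obtain ⟨H, V, T, hHV, hHT, -⟩ := D.exists_wei hh
  have hL' : ∀ l, l ∈ L ↔ (D.mp H).eval (D.ρ l) = 0 := by
    intro l
    rw [hL]
    have h1 := D.G_σ l hHV
    constructor
    · intro h2
      rw [h2] at h1
      exact (associated_zero_iff_eq_zero _).1 h1.symm
    · intro h2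
      rw [← mp_eq, h2] at h1
      exact (associated_zero_iff_eq_zero _).1 h1
  have hinv : ∀ ζ : K, ζ ^ D.M = 1 →
      (∏ l ∈ L, (Polynomial.X - Polynomial.C (D.ρ l))).map (rot ζ) =
        ∏ l ∈ L, (Polynomial.X - Polynomial.C (D.ρ l)) := by
    intro ζ hζ
    have hζ0 : ζ ≠ 0 := by
      rintro rfl
      rw [zero_pow D.hM] at hζ
      exact zero_ne_one hζ
    rw [prod_inj D.ρ_injective, Polynomial.map_prod]
    have h1 : ∏ a ∈ L.image D.ρ, (Polynomial.X - Polynomial.C a).map (rot ζ) =
        ∏ a ∈ (L.image D.ρ).image (rot ζ), (Polynomial.X - Polynomial.C a) := by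
      rw [Finset.prod_image fun _ _ _ _ h => rot_injective hζ0 h]
      refine Finset.prod_congr rfl fun a _ => ?_
      rw [Polynomial.map_sub, Polynomial.map_X, Polynomial.map_C]
    have h2 : (L.image D.ρ).image (rot ζ) = L.image D.ρ := by
      apply Finset.eq_of_subset_of_card_le
      · intro a ha
        obtain ⟨a', ha', rfl⟩ := Finset.mem_image.1 ha
        obtain ⟨l, hl, rfl⟩ := Finset.mem_image.1 ha'
        obtain ⟨l', hl'⟩ := exists_conj D.hM D.hρ hζ l
        rw [hl']
        refine Finset.mem_image_of_mem _ ?_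
        rw [hL'] at hl ⊢
        have h3 : (D.mp H).map (rot ζ) = D.mp H := by
          rw [mp, Polynomial.map_map]
          congr 1
          ext1 x
          exact rot_ram D.hM hζ x
        rw [← hl', ← h3, Polynomial.eval_map_apply, hl, map_zero]
      · rw [Finset.card_image_of_injective _ (rot_injective hζ0)]
    rw [h1, h2]
  obtain ⟨Q, hQ⟩ := exists_descent D.hM _ hinv
  refine ⟨Q.map (D.β.symm : WS d K →+* MvPowerSeries (Fin (d + 1)) K), ?_⟩
  rw [mp, Polynomial.map_map (D.β.symm : WS d K →+* MvPowerSeries (Fin (d + 1)) K)]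
  have h1 : (D.β : MvPowerSeries (Fin (d + 1)) K →+* WS d K).comp
      (D.β.symm : WS d K →+* MvPowerSeries (Fin (d + 1)) K) = RingHom.id _ :=
    RingHom.ext fun x => D.β.apply_symm_apply x
  rw [h1, Polynomial.map_id, hQ]

variable {D}

theorem monic_of_mp {H : Polynomial (MvPowerSeries (Fin (d + 1)) K)} (h : (D.mp H).Monic) :
    H.Monic :=
  Polynomial.monic_of_injective D.β_injective
    (Polynomial.monic_of_injective (ram_injective D.hM) h)

theorem deg_of_mp {H : Polynomial (MvPowerSeries (Fin (d + 1)) K)} :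
    (D.mp H).natDegree = H.natDegree := by
  rw [mp, Polynomial.natDegree_map_eq_of_injective (ram_injective D.hM),
    Polynomial.natDegree_map_eq_of_injective D.β_injective]

theorem prod_deg (L : Finset (Fin D.P.natDegree)) :
    (∏ l ∈ L, (Polynomial.X - Polynomial.C (D.ρ l))).natDegree = L.card := by
  rw [Polynomial.natDegree_prod_of_monic _ _ fun l _ => Polynomial.monic_X_sub_C _]
  simp

theorem prod_monic (L : Finset (Fin D.P.natDegree)) :
    (∏ l ∈ L, (Polynomial.X - Polynomial.C (D.ρ l))).Monic :=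
  Polynomial.monic_prod_of_monic _ _ fun l _ => Polynomial.monic_X_sub_C _

/-- The residue map. -/
theorem res_ram (x : MvPowerSeries (Fin (d + 1)) K) :
    Pool.Agent.Helper85.SB.res d K (ram D.hM (D.β x)) = constantCoeff x := by
  have h1 : ∀ y : WS d K, Pool.Agent.Helper85.SB.res d K (ram D.hM y) =
      constantCoeff (PowerSeries.constantCoeff y) := by
    intro y
    change constantCoeff (PowerSeries.constantCoeff (PowerSeries.expand D.M D.hM y)) = _
    rw [PowerSeries.constantCoeff_expand]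
  have h2 : x - C (constantCoeff x) ∈
      IsLocalRing.maximalIdeal (MvPowerSeries (Fin (d + 1)) K) := by
    rw [mem_maximalIdeal_iff_constantCoeff, map_sub, constantCoeff_C, sub_self]
  have h3 := (map_algEquiv_mem D.β _).2 h2
  have h4 : D.β (C (constantCoeff x)) = PowerSeries.C (C (constantCoeff x)) := by
    change D.β (algebraMap K (MvPowerSeries (Fin (d + 1)) K) (constantCoeff x)) = _
    rw [AlgEquiv.commutes, IsScalarTower.algebraMap_apply K (MvPowerSeries (Fin d) K) (WS d K)]
    rfl
  rw [mem_WS, map_sub, h4, map_sub, map_sub, PowerSeries.constantCoeff_C, constantCoeff_C,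
    sub_eq_zero] at h3
  rw [h1, h3]

/-- The product of the branches is a distinguished polynomial. -/
theorem dist_of_mp {H : Polynomial (MvPowerSeries (Fin (d + 1)) K)}
    {L : Finset (Fin D.P.natDegree)}
    (hH : D.mp H = ∏ l ∈ L, (Polynomial.X - Polynomial.C (D.ρ l))) :
    H.IsDistinguishedAt (IsLocalRing.maximalIdeal (MvPowerSeries (Fin (d + 1)) K)) := by
  have hm : H.Monic := monic_of_mp (hH ▸ prod_monic L)
  have hn : H.natDegree = L.card := by rw [← deg_of_mp (D := D), hH, prod_deg]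
  refine ⟨⟨fun {k} hk => ?_⟩, hm⟩
  have h1 : (D.mp H).map (Pool.Agent.Helper85.SB.res d K) = Polynomial.X ^ L.card := by
    rw [hH, Polynomial.map_prod]
    have h2 : ∀ l ∈ L, (Polynomial.X - Polynomial.C (D.ρ l)).map
        (Pool.Agent.Helper85.SB.res d K) = Polynomial.X := by
      intro l _
      have h3 : Pool.Agent.Helper85.SB.res d K (D.ρ l) = 0 := (mem_WS _).1 (D.ρm l)
      rw [Polynomial.map_sub, Polynomial.map_X, Polynomial.map_C, h3, map_zero, sub_zero]
    rw [Finset.prod_congr rfl h2, Finset.prod_const]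
  have h2 := congrArg (fun Q => Polynomial.coeff Q k) h1
  simp only [mp, Polynomial.coeff_map, Polynomial.coeff_X_pow] at h2
  rw [if_neg (by omega)] at h2
  rw [mem_maximalIdeal_iff_constantCoeff, ← res_ram (D := D)]
  exact h2

/-- A series which vanishes on all branches in `L` is divisible by their product. -/
theorem dvd_of_zero {H : Polynomial (MvPowerSeries (Fin (d + 1)) K)}
    {L : Finset (Fin D.P.natDegree)}
    (hH : D.mp H = ∏ l ∈ L, (Polynomial.X - Polynomial.C (D.ρ l)))
    {f : MvPowerSeries (Fin (d + 2)) K} (hf : ∀ l ∈ L, D.G l f = 0) :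
    D.p.σ.symm (H : PowerSeries (MvPowerSeries (Fin (d + 1)) K)) ∣ f := by
  classical
  have hcomp := isAdicComplete_mvPowerSeries (d + 1) K
  have hdist := dist_of_mp hH
  have hn : H.natDegree = L.card := by rw [← deg_of_mp (D := D), hH, prod_deg]
  have hW : (H : PowerSeries (MvPowerSeries (Fin (d + 1)) K)).IsWeierstrassFactorization H 1 :=
    ⟨hdist, isUnit_one, (mul_one _).symm⟩
  obtain ⟨q, r, hqr⟩ := PowerSeries.exists_isWeierstrassDivision (f := D.p.σ f) hW.map_ne_zero
  have hdeg : r.degree < L.card := by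
    have h1 := hqr.degree_lt
    have h2 := hW.natDegree_eq_toNat_order_map
    rw [← hn, h2]
    exact h1
  have hr : r = 0 := by
    apply D.mp_injective
    have h0 : D.mp 0 = 0 := by rw [mp, Polynomial.map_zero, Polynomial.map_zero]
    rw [h0]
    refine Polynomial.eq_zero_of_degree_lt_of_eval_finset_eq_zero (L.image D.ρ) ?_ ?_
    · rw [Finset.card_image_of_injective _ D.ρ_injective]
      refine lt_of_le_of_lt ?_ hdeg
      exact (Polynomial.degree_map_le).trans Polynomial.degree_map_le
    · intro a ha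
      obtain ⟨l, hl, rfl⟩ := Finset.mem_image.1 ha
      rw [mp, ← D.G_poly l r]
      have h1 : (r : PowerSeries (MvPowerSeries (Fin (d + 1)) K)) = D.p.σ f - H * q := by
        rw [hqr.eq_mul_add]
        ring
      rw [h1, map_sub, AlgEquiv.symm_apply_apply, map_sub, hf l hl, map_mul, map_mul, D.G_poly l H,
        ← mp_eq, hH, Polynomial.eval_prod, Finset.prod_eq_zero hl, zero_mul, sub_zero]
      rw [Polynomial.eval_sub, Polynomial.eval_X, Polynomial.eval_C, sub_self]
  refine ⟨D.p.σ.symm q, ?_⟩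
  rw [← map_mul]
  apply D.p.σ.injective
  rw [AlgEquiv.apply_symm_apply, hqr.eq_mul_add, hr, Polynomial.coe_zero, add_zero]

/-- A power of the product of the branches of `h` is divisible by `h`. -/
theorem dvd_pow_of_mp [IsAlgClosed K] [CharZero K] {h : MvPowerSeries (Fin (d + 2)) K} {k : ℕ}
    (hh : h ∣ g ^ k) {L : Finset (Fin D.P.natDegree)} (hL : ∀ l, l ∈ L ↔ D.G l h = 0)
    {H : Polynomial (MvPowerSeries (Fin (d + 1)) K)}
    (hH : D.mp H = ∏ l ∈ L, (Polynomial.X - Polynomial.C (D.ρ l))) :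
    ∃ m, h ∣ D.p.σ.symm (H : PowerSeries (MvPowerSeries (Fin (d + 1)) K)) ^ m := by
  classical
  obtain ⟨H₁, V, T, hHV, hHT, hT⟩ := D.exists_wei hh
  refine ⟨T.card, ?_⟩
  have h1 : D.mp H₁ ∣ D.mp (H ^ T.card) := by
    have h2 : D.mp (H ^ T.card) = D.mp H ^ T.card := by
      rw [mp, mp, Polynomial.map_pow, Polynomial.map_pow]
    rw [h2, hHT, ← Multiset.prod_replicate, ← Multiset.map_const']
    refine Multiset.prod_dvd_prod_of_dvd _ _ fun a ha => ?_
    obtain ⟨l, rfl⟩ := hT a ha
    have hl : l ∈ L := by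
      rw [hL]
      have h3 := D.G_σ l hHV
      rw [← mp_eq, hHT, Polynomial.eval_multiset_prod, Multiset.map_map,
        Multiset.prod_eq_zero] at h3
      · exact (associated_zero_iff_eq_zero _).1 h3
      · refine Multiset.mem_map.2 ⟨D.ρ l, ha, ?_⟩
        simp
    rw [hH]
    exact Finset.dvd_prod_of_mem _ hl
  have h2 : H₁ ∣ H ^ T.card := by
    have h3 := dvd_of_map_dvd D.hM (hHV.isDistinguishedAt.monic.map _) h1
    have h4 := map_dvd (Polynomial.mapRingHom
      (D.β.symm : WS d K →+* MvPowerSeries (Fin (d + 1)) K)) h3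
    have h5 : ∀ Q : Polynomial (MvPowerSeries (Fin (d + 1)) K),
        Polynomial.mapRingHom (D.β.symm : WS d K →+* MvPowerSeries (Fin (d + 1)) K)
          (Q.map (D.β : MvPowerSeries (Fin (d + 1)) K →+* WS d K)) = Q := by
      intro Q
      have h6 : (D.β.symm : WS d K →+* MvPowerSeries (Fin (d + 1)) K).comp
          (D.β : MvPowerSeries (Fin (d + 1)) K →+* WS d K) = RingHom.id _ :=
        RingHom.ext fun x => D.β.symm_apply_apply x
      rw [Polynomial.coe_mapRingHom, Polynomial.map_map, h6, Polynomial.map_id]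
    rw [h5, h5] at h4
    exact h4
  obtain ⟨c, hc⟩ := h2
  have h3 : D.p.σ h ∣ (H : PowerSeries (MvPowerSeries (Fin (d + 1)) K)) ^ T.card := by
    rw [hHV.eq_mul, ← Polynomial.coe_pow, hc, Polynomial.coe_mul]
    exact (IsUnit.mul_right_dvd hHV.isUnit).2 (dvd_mul_right _ _)
  have h4 := map_dvd D.p.σ.symm h3
  rwa [AlgEquiv.symm_apply_apply, map_pow] at h4

/-- The radical. -/
theorem radical_eq [IsAlgClosed K] [CharZero K] {h : MvPowerSeries (Fin (d + 2)) K} {k : ℕ}
    (hh : h ∣ g ^ k) {L : Finset (Fin D.P.natDegree)} (hL : ∀ l, l ∈ L ↔ D.G l h = 0)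
    {H : Polynomial (MvPowerSeries (Fin (d + 1)) K)}
    (hH : D.mp H = ∏ l ∈ L, (Polynomial.X - Polynomial.C (D.ρ l))) :
    (Ideal.span {h}).radical =
      Ideal.span {D.p.σ.symm (H : PowerSeries (MvPowerSeries (Fin (d + 1)) K))} := by
  apply le_antisymm
  · rintro f ⟨m, hm⟩
    rw [Ideal.mem_span_singleton] at hm ⊢
    apply dvd_of_zero hH
    intro l hl
    obtain ⟨c, hc⟩ := hm
    have h1 : D.G l f ^ m = 0 := by
      rw [← map_pow, hc, map_mul, (hL l).1 hl, zero_mul]
    have hm0 : m ≠ 0 := fun h0 => by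
      rw [h0, pow_zero] at h1
      exact one_ne_zero h1
    exact (pow_eq_zero_iff hm0).1 h1
  · rw [Ideal.span_singleton_le_iff_mem]
    obtain ⟨m, hm⟩ := dvd_pow_of_mp hh hL hH
    exact ⟨m, Ideal.mem_span_singleton.2 hm⟩

end Dat

end Pool.Agent.Helper38.SB
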