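import Pool.Agent.Helper85.SB.R
import Pool.Agent.Helper38.GP.Interp

/-! Block J: all roots are congruent modulo `s ^ M`. -/

namespace Pool.Agent.Helper38.SB

open MvPowerSeries Pool.Agent.Helper38.EQ Pool.Agent.Helper38.GP Pool.Agent.Helper85.SB

/-- A root of a monic polynomial with small coefficients is small. -/
theorem root_small {K : Type} [Field K] {N M : ℕ} {a : PowerSeries K} (c : ℕ → PowerSeries K)
    (hc : ∀ k < N, (PowerSeries.X : PowerSeries K) ^ (M * (N - k)) ∣ c k)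
    (h : a ^ N + ∑ k ∈ Finset.range N, c k * a ^ k = 0) :
    (PowerSeries.X : PowerSeries K) ^ M ∣ a := by
  classical
  by_contra hcon
  have hex : ∃ m, ¬ (PowerSeries.X : PowerSeries K) ^ m ∣ a := ⟨M, hcon⟩
  set m := Nat.find hex with hm
  have h1 : ¬ (PowerSeries.X : PowerSeries K) ^ m ∣ a := Nat.find_spec hex
  have hmM : m ≤ M := Nat.find_min' hex hcon
  have hm0 : m ≠ 0 := by
    intro h0
    rw [h0, pow_zero] at h1
    exact h1 (one_dvd _)
  obtain ⟨e, he⟩ := Nat.exists_eq_succ_of_ne_zero hm0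
  have h2 : (PowerSeries.X : PowerSeries K) ^ e ∣ a := by
    by_contra h3
    have := Nat.find_min' hex h3
    omega
  obtain ⟨b, hb⟩ := h2
  have hXb : ¬ (PowerSeries.X : PowerSeries K) ∣ b := by
    rintro ⟨q, hq⟩
    apply h1
    rw [he, Nat.succ_eq_add_one, pow_succ, hb, hq]
    exact ⟨q, by ring⟩
  have h3 : (PowerSeries.X : PowerSeries K) ^ (e * N + 1) ∣
      ∑ k ∈ Finset.range N, c k * a ^ k := by
    refine Finset.dvd_sum fun k hk => ?_
    rw [Finset.mem_range] at hk
    have h4 : (PowerSeries.X : PowerSeries K) ^ (M * (N - k) + e * k) ∣ c k * a ^ k := by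
      rw [pow_add]
      refine mul_dvd_mul (hc k hk) ?_
      rw [hb, pow_mul]
      exact pow_dvd_pow_of_dvd (dvd_mul_right _ _) k
    refine (pow_dvd_pow _ ?_).trans h4
    have h5 : (e + 1) * (N - k) ≤ M * (N - k) := Nat.mul_le_mul_right _ (by omega)
    have h6 : e * N = e * (N - k) + e * k := by
      rw [← Nat.mul_add, Nat.sub_add_cancel hk.le]
    have h7 : (e + 1) * (N - k) = e * (N - k) + (N - k) := by ring
    omega
  have h8 : (PowerSeries.X : PowerSeries K) ^ (e * N + 1) ∣ a ^ N := by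
    have h9 : a ^ N = -∑ k ∈ Finset.range N, c k * a ^ k := by
      linear_combination h
    rw [h9, dvd_neg]
    exact h3
  rw [hb, mul_pow, ← pow_mul, pow_succ] at h8
  have h10 : (PowerSeries.X : PowerSeries K) ∣ b ^ N :=
    (mul_dvd_mul_iff_left (pow_ne_zero _ PowerSeries.X_ne_zero)).1 h8
  exact hXb (PowerSeries.X_prime.dvd_of_dvd_pow h10)

section ws

variable {d : ℕ} {K : Type} [Field K]

theorem rot_ram {M : ℕ} (hM : M ≠ 0) {ζ : K} (hζ : ζ ^ M = 1) (x : WS d K) :
    rot ζ (ram hM x) = ram hM x := by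
  apply PowerSeries.ext
  intro n
  show PowerSeries.coeff n (PowerSeries.rescale (C ζ) (PowerSeries.expand M hM x)) =
    PowerSeries.coeff n (PowerSeries.expand M hM x)
  rw [PowerSeries.coeff_rescale, PowerSeries.coeff_expand]
  split_ifs with h
  · obtain ⟨m, rfl⟩ := h
    rw [← map_pow, pow_mul, hζ, one_pow, map_one, one_mul]
  · rw [mul_zero]

theorem om_ram {M : ℕ} (hM : M ≠ 0) (x : WS d K) :
    om d K (ram hM x) = PowerSeries.expand M hM (om d K x) := by
  show om d K (PowerSeries.expand M hM x) = _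
  rw [om, PowerSeries.map_expand]

theorem ram_injective {M : ℕ} (hM : M ≠ 0) : Function.Injective (ram (d := d) (K := K) hM) := by
  intro x y h
  apply PowerSeries.ext
  intro n
  have h1 := congrArg (PowerSeries.coeff (M * n)) h
  change PowerSeries.coeff (M * n) (PowerSeries.expand M hM x) =
    PowerSeries.coeff (M * n) (PowerSeries.expand M hM y) at h1
  rwa [PowerSeries.coeff_expand_mul, PowerSeries.coeff_expand_mul] at h1

theorem ram_X {M : ℕ} (hM : M ≠ 0) :
    ram hM (PowerSeries.X : WS d K) = PowerSeries.X ^ M := PowerSeries.expand_X M hM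

/-- If `s ^ (M k)` divides `x(s ^ M)`, then `s ^ k` divides `x`. -/
theorem dvd_of_ram {M : ℕ} (hM : M ≠ 0) {x : WS d K} {k : ℕ}
    (h : PowerSeries.X ^ (M * k) ∣ ram hM x) : PowerSeries.X ^ k ∣ x := by
  rw [PowerSeries.X_pow_dvd_iff] at h ⊢
  intro m hm
  have h1 := h (M * m) (Nat.mul_lt_mul_of_pos_left hm (Nat.pos_of_ne_zero hM))
  change PowerSeries.coeff (M * m) (PowerSeries.expand M hM x) = 0 at h1
  rwa [PowerSeries.coeff_expand_mul] at h1

/-- A series fixed by a primitive rotation modulo `s ^ M` is constant modulo `s ^ M`. -/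
theorem const_of_rot {M : ℕ} (hM : M ≠ 0) {ζ : K} (hζ : IsPrimitiveRoot ζ M) {x : WS d K}
    (h : PowerSeries.X ^ M ∣ rot ζ x - x) :
    PowerSeries.X ^ M ∣ x - PowerSeries.C (PowerSeries.constantCoeff x) := by
  rw [PowerSeries.X_pow_dvd_iff] at h ⊢
  intro m hm
  rcases Nat.eq_zero_or_pos m with rfl | hpos
  · rw [map_sub, PowerSeries.coeff_zero_eq_constantCoeff_apply,
      PowerSeries.coeff_zero_eq_constantCoeff_apply, PowerSeries.constantCoeff_C, sub_self]
  · have h1 := h m hm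
    rw [map_sub] at h1
    change PowerSeries.coeff m (PowerSeries.rescale (C ζ) x) - _ = 0 at h1
    rw [PowerSeries.coeff_rescale, ← map_pow] at h1
    have h2 : (C (ζ ^ m - 1) : MvPowerSeries (Fin d) K) * PowerSeries.coeff m x = 0 := by
      rw [map_sub, map_one]
      linear_combination h1
    have h3 : (C (ζ ^ m - 1) : MvPowerSeries (Fin d) K) ≠ 0 := by
      intro h4
      have h5 : ζ ^ m - 1 = 0 := MvPowerSeries.C_injective (by rw [h4, map_zero])
      exact hζ.pow_ne_one_of_pos_of_lt hpos.ne' hm (sub_eq_zero.1 h5)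
    rw [map_sub, (mul_eq_zero.1 h2).resolve_left h3, PowerSeries.coeff_C, if_neg hpos.ne', sub_zero]

theorem om_dvd {x : WS d K} {k : ℕ} (h : PowerSeries.X ^ k ∣ x) :
    PowerSeries.X ^ k ∣ om d K x := by
  obtain ⟨y, rfl⟩ := h
  rw [map_mul, map_pow]
  refine ⟨om d K y, ?_⟩
  rw [om, PowerSeries.map_X]

theorem om_mem {x : WS d K} {k : ℕ} (h : x ∈ IsLocalRing.maximalIdeal (WS d K) ^ k) :
    PowerSeries.X ^ k ∣ om d K x := by
  have h1 : Ideal.map (om d K) (IsLocalRing.maximalIdeal (WS d K)) ≤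
      Ideal.span {(PowerSeries.X : PowerSeries K)} := by
    rw [Ideal.map_le_iff_le_comap]
    intro y hy
    rw [Ideal.mem_comap, Ideal.mem_span_singleton, PowerSeries.X_dvd_iff]
    rw [IsLocalRing.mem_maximalIdeal, mem_nonunits_iff, PowerSeries.isUnit_iff_constantCoeff,
      MvPowerSeries.isUnit_iff_constantCoeff, isUnit_iff_ne_zero, not_not] at hy
    rw [om, ← PowerSeries.coeff_zero_eq_constantCoeff_apply, PowerSeries.coeff_map,
      PowerSeries.coeff_zero_eq_constantCoeff_apply]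
    exact hy
  have h2 : om d K x ∈ Ideal.span {(PowerSeries.X : PowerSeries K)} ^ k := by
    refine (Ideal.pow_right_mono h1 k) ?_
    rw [← Ideal.map_pow]
    exact Ideal.mem_map_of_mem _ h
  rwa [Ideal.span_singleton_pow, Ideal.mem_span_singleton] at h2

end ws

section main

variable {d : ℕ} {K : Type} [Field K]

theorem eval_prod_X_sub_C {R : Type} [CommRing R] {N : ℕ} (ρ : Fin N → R) (a : R) :
    (∏ i, (Polynomial.X - Polynomial.C (ρ i))).eval a = ∏ i, (a - ρ i) := by
  rw [Polynomial.eval_prod]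
  refine Finset.prod_congr rfl fun i _ => ?_
  rw [Polynomial.eval_sub, Polynomial.eval_X, Polynomial.eval_C]

/-- At `t = 0` the roots are divisible by `s ^ M`. -/
theorem om_root_dvd {N M : ℕ} (hM : M ≠ 0) {Q : Polynomial (WS d K)} (hQ : Q.Monic)
    (hN : Q.natDegree = N) (hc : ∀ k, Q.coeff k ∈ IsLocalRing.maximalIdeal (WS d K) ^ (N - k))
    {ρ : Fin N → WS d K}
    (hρ : Q.map (ram hM) = ∏ i, (Polynomial.X - Polynomial.C (ρ i))) (l : Fin N) :
    PowerSeries.X ^ M ∣ om d K (ρ l) := by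
  have h1 : (Q.map (ram hM)).eval (ρ l) = 0 := by
    rw [hρ, eval_prod_X_sub_C]
    exact Finset.prod_eq_zero (Finset.mem_univ l) (sub_self _)
  have h2 : ρ l ^ N + ∑ k ∈ Finset.range N, ram hM (Q.coeff k) * ρ l ^ k = 0 := by
    rw [Polynomial.eval_map, Polynomial.eval₂_eq_sum_range, hN, Finset.sum_range_succ] at h1
    have h3 : Q.coeff N = 1 := by rw [← hN]; exact hQ
    rw [h3, map_one, one_mul] at h1
    rw [add_comm]
    exact h1
  refine root_small (N := N) (fun k => om d K (ram hM (Q.coeff k))) (fun k _ => ?_) ?_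
  · rw [om_ram]
    have h3 := om_mem (hc k)
    obtain ⟨q, hq⟩ := h3
    rw [hq, map_mul, map_pow, PowerSeries.expand_X, ← pow_mul]
    exact dvd_mul_right _ _
  · have h3 := congrArg (om d K) h2
    rw [map_add, map_pow, map_sum, map_zero] at h3
    rw [← h3]
    congr 1
    refine Finset.sum_congr rfl fun k _ => ?_
    rw [map_mul, map_pow]

/-- All differences of the roots are divisible by `s ^ M`. -/
theorem diff_dvd {N M : ℕ} (hM : M ≠ 0) {Q : Polynomial (WS d K)} (hQ : Q.Monic)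
    (hN : Q.natDegree = N) (hc : ∀ k, Q.coeff k ∈ IsLocalRing.maximalIdeal (WS d K) ^ (N - k))
    {ρ : Fin N → WS d K}
    (hρ : Q.map (ram hM) = ∏ i, (Polynomial.X - Polynomial.C (ρ i)))
    (hd : ∀ i j, i ≠ j → ∃ e, Associated (ρ i - ρ j) (PowerSeries.X ^ e)) (l l' : Fin N) :
    PowerSeries.X ^ M ∣ ρ l - ρ l' := by
  by_cases hl : l = l'
  · rw [hl, sub_self]
    exact dvd_zero _
  · obtain ⟨e, he⟩ := hd l l' hl
    refine (pow_dvd_pow _ ?_).trans he.symm.dvd
    have h1 : (PowerSeries.X : PowerSeries K) ^ M ∣ om d K (ρ l - ρ l') := by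
      rw [map_sub]
      exact dvd_sub (om_root_dvd hM hQ hN hc hρ l) (om_root_dvd hM hQ hN hc hρ l')
    have h2 : Associated (om d K (ρ l - ρ l')) (PowerSeries.X ^ e) := by
      have h3 := he.map (om d K)
      rw [map_pow] at h3
      have h4 : om d K (PowerSeries.X : WS d K) = PowerSeries.X := by rw [om, PowerSeries.map_X]
      rwa [h4] at h3
    have h3 := h1.trans h2.dvd
    exact (pow_dvd_pow_iff PowerSeries.X_ne_zero PowerSeries.X_prime.not_unit).1 h3

/-- The rotations permute the roots. -/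
theorem exists_conj {N M : ℕ} (hM : M ≠ 0) {Q : Polynomial (WS d K)} {ρ : Fin N → WS d K}
    (hρ : Q.map (ram hM) = ∏ i, (Polynomial.X - Polynomial.C (ρ i))) {ζ : K} (hζ : ζ ^ M = 1)
    (l : Fin N) : ∃ l', rot ζ (ρ l) = ρ l' := by
  have h1 : (∏ i, (Polynomial.X - Polynomial.C (ρ i))).map (rot ζ) =
      ∏ i, (Polynomial.X - Polynomial.C (ρ i)) := by
    rw [← hρ, Polynomial.map_map]
    congr 1
    ext1 x
    exact rot_ram hM hζ x
  have h2 : (∏ i, (Polynomial.X - Polynomial.C (ρ i))).eval (rot ζ (ρ l)) = 0 := by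
    rw [← h1, Polynomial.eval_map_apply, eval_prod_X_sub_C]
    rw [Finset.prod_eq_zero (Finset.mem_univ l) (sub_self _), map_zero]
  rw [eval_prod_X_sub_C, Finset.prod_eq_zero_iff] at h2
  obtain ⟨l', -, hl'⟩ := h2
  exact ⟨l', sub_eq_zero.1 hl'⟩

/-- All roots are congruent modulo `s ^ M` to the section `r₀(s ^ M)`. -/
theorem slopes [IsAlgClosed K] [CharZero K] {N M : ℕ} (hM : M ≠ 0) {Q : Polynomial (WS d K)}
    (hQ : Q.Monic) (hN : Q.natDegree = N)
    (hc : ∀ k, Q.coeff k ∈ IsLocalRing.maximalIdeal (WS d K) ^ (N - k))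
    {ρ : Fin N → WS d K}
    (hρ : Q.map (ram hM) = ∏ i, (Polynomial.X - Polynomial.C (ρ i)))
    (hd : ∀ i j, i ≠ j → ∃ e, Associated (ρ i - ρ j) (PowerSeries.X ^ e))
    {r₀ : WS d K} (hr : PowerSeries.X ∣ Q.eval r₀) (l : Fin N) :
    PowerSeries.X ^ M ∣ ρ l - ram hM r₀ := by
  haveI : NeZero (M : K) := ⟨Nat.cast_ne_zero.2 hM⟩
  obtain ⟨ζ, hζ⟩ := HasEnoughRootsOfUnity.exists_primitiveRoot K M
  have hζ1 : ζ ^ M = 1 := hζ.pow_eq_one
  have hrot : ∀ x : WS d K, (PowerSeries.X ^ M ∣ rot ζ x - x) →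
      PowerSeries.X ^ M ∣ x - PowerSeries.C (PowerSeries.constantCoeff x) := fun x =>
    const_of_rot hM hζ
  have h1 : ∀ i, PowerSeries.X ^ M ∣ ρ i - PowerSeries.C (PowerSeries.constantCoeff (ρ i)) := by
    intro i
    refine hrot _ ?_
    obtain ⟨i', hi'⟩ := exists_conj hM hρ hζ1 i
    rw [hi']
    exact diff_dvd hM hQ hN hc hρ hd i' i
  have h2 : PowerSeries.X ^ M ∣
      ram hM r₀ - PowerSeries.C (PowerSeries.constantCoeff (ram hM r₀)) := by
    refine hrot _ ?_
    rw [rot_ram hM hζ1, sub_self]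
    exact dvd_zero _
  have hcc : ∀ x y : WS d K, PowerSeries.X ^ M ∣ x - y →
      PowerSeries.constantCoeff x = PowerSeries.constantCoeff y := by
    intro x y h
    have h3 : (PowerSeries.X : WS d K) ∣ x - y := (dvd_pow_self _ hM).trans h
    rw [PowerSeries.X_dvd_iff, map_sub, sub_eq_zero] at h3
    exact h3
  have h3 : ∃ i, PowerSeries.constantCoeff (ram hM r₀) = PowerSeries.constantCoeff (ρ i) := by
    obtain ⟨q, hq⟩ := hr
    have h4 : (Q.map (ram hM)).eval (ram hM r₀) = ram hM (Q.eval r₀) :=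
      Polynomial.eval_map_apply _ _
    rw [hρ, eval_prod_X_sub_C, hq, map_mul, ram_X] at h4
    have h5 := congrArg PowerSeries.constantCoeff h4
    rw [map_prod, map_mul, map_pow, PowerSeries.constantCoeff_X, zero_pow hM, zero_mul,
      Finset.prod_eq_zero_iff] at h5
    obtain ⟨i, -, hi⟩ := h5
    exact ⟨i, by rwa [map_sub, sub_eq_zero] at hi⟩
  obtain ⟨i, hi⟩ := h3
  have h4 : PowerSeries.constantCoeff (ρ i) = PowerSeries.constantCoeff (ρ l) :=
    hcc _ _ (diff_dvd hM hQ hN hc hρ hd i l)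
  have h5 : ρ l - ram hM r₀ = (ρ l - PowerSeries.C (PowerSeries.constantCoeff (ρ l))) -
      (ram hM r₀ - PowerSeries.C (PowerSeries.constantCoeff (ram hM r₀))) := by
    rw [hi, h4]
    ring
  rw [h5]
  exact dvd_sub (h1 l) h2

end main

end Pool.Agent.Helper38.SB
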